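import Pool.Agent.SDA.Defs

/-!
# Basic facts on generators, orbits and pointwise stabilisers (package 1)
-/

set_option autoImplicit false
open scoped BigOperators Pointwise Nat
open Equiv

namespace Pool.Agent.SDA

/-- A proper extension of finite groups at least doubles the order. -/
theorem basic_two_mul_card_le {G : Type*} [Group G] [Finite G] {A B : Subgroup G} (h : A < B) :
    2 * Nat.card A ≤ Nat.card B := by
  obtain ⟨c, hc⟩ := Subgroup.card_dvd_of_le h.le
  have hpos : 0 < Nat.card B := Nat.card_pos
  have hA : 0 < Nat.card A := Nat.card_pos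
  have hne : c ≠ 1 := by
    intro h1
    rw [h1, mul_one] at hc
    exact h.ne (Subgroup.eq_of_le_of_card_ge h.le hc.le)
  have h0 : c ≠ 0 := by
    intro h1
    rw [h1, mul_zero] at hc
    omega
  have h2 : 2 ≤ c := by omega
  rw [hc, mul_comm 2]
  exact Nat.mul_le_mul_left _ h2

theorem exists_gens {G : Type*} [Group G] [Finite G] {A B : Subgroup G} (h : A ≤ B) :
    ∃ X : Finset G, B = A ⊔ Subgroup.closure (X : Set G) ∧
      Nat.card A * 2 ^ X.card ≤ Nat.card B := by
  classical
  obtain ⟨m, hm⟩ : ∃ m, Nat.card B - Nat.card A = m := ⟨_, rfl⟩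
  induction m using Nat.strong_induction_on generalizing A with
  | _ m ih =>
    by_cases hAB : A = B
    · subst hAB
      exact ⟨∅, by simp, by simp⟩
    · have hlt : A < B := lt_of_le_of_ne h hAB
      obtain ⟨x, hxB, hxA⟩ := SetLike.exists_of_lt hlt
      have hxle : Subgroup.closure {x} ≤ B := by
        rw [Subgroup.closure_le]
        simpa using hxB
      have hA'B : A ⊔ Subgroup.closure {x} ≤ B := sup_le h hxle
      have hA' : A < A ⊔ Subgroup.closure {x} := by
        refine lt_of_le_of_ne le_sup_left ?_
        intro he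
        apply hxA
        rw [he]
        exact Subgroup.mem_sup_right (Subgroup.subset_closure rfl)
      have h2 := basic_two_mul_card_le hA'
      have h3 := Subgroup.card_le_of_le hA'B
      have hpos : 0 < Nat.card A := Nat.card_pos
      obtain ⟨X, hX, hXc⟩ := ih (Nat.card B - Nat.card ↥(A ⊔ Subgroup.closure {x}))
        (by omega) hA'B rfl
      refine ⟨insert x X, ?_, ?_⟩
      · rw [Finset.coe_insert, Set.insert_eq, Subgroup.closure_union, ← sup_assoc]
        exact hX
      · calc Nat.card A * 2 ^ (insert x X).card ≤ Nat.card A * 2 ^ (X.card + 1) := by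
              apply Nat.mul_le_mul_left
              exact Nat.pow_le_pow_right (by norm_num) (Finset.card_insert_le _ _)
          _ = (2 * Nat.card A) * 2 ^ X.card := by ring
          _ ≤ Nat.card ↥(A ⊔ Subgroup.closure {x}) * 2 ^ X.card := Nat.mul_le_mul_right _ h2
          _ ≤ Nat.card B := hXc

theorem card_eq_orb_mul {α : Type*} [Fintype α] (Y : Subgroup (Perm α)) (a : α) :
    Nat.card Y = (orb Y a).card * Nat.card (pst Y {a}) := by
  classical
  have h1 : Nat.card Y = Nat.card (MulAction.stabilizer Y a) * (MulAction.stabilizer Y a).index :=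
    (Subgroup.card_mul_index _).symm
  have h2 : (MulAction.stabilizer Y a).index = (orb Y a).card := by
    rw [MulAction.index_stabilizer]
    have : MulAction.orbit Y a = ((orb Y a : Finset α) : Set α) := by
      ext b
      rw [Finset.mem_coe, mem_orb, MulAction.mem_orbit_iff]
      constructor
      · rintro ⟨g, hg⟩
        exact ⟨g.1, g.2, hg⟩
      · rintro ⟨g, hg, hgb⟩
        exact ⟨⟨g, hg⟩, hgb⟩
    rw [this, Set.ncard_coe_finset]
  have h3 : Nat.card (MulAction.stabilizer Y a) = Nat.card (pst Y {a}) := by
    refine Nat.card_congr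
      { toFun := fun g => ⟨g.1.1, g.1.2, fun t ht => ?_⟩
        invFun := fun g => ⟨⟨g.1, g.2.1⟩, ?_⟩
        left_inv := fun g => rfl
        right_inv := fun g => rfl }
    · rw [Finset.mem_singleton] at ht
      subst ht
      exact g.2
    · rw [MulAction.mem_stabilizer_iff]
      exact g.2.2 a (Finset.mem_singleton_self a)
  rw [h1, h2, h3, mul_comm]

theorem card_le_pst {α : Type*} [Fintype α] (Y : Subgroup (Perm α)) (T : Finset α) :
    Nat.card Y ≤ Nat.card (pst Y T) * ∏ t ∈ T, (orb Y t).card := by
  classical
  induction T using Finset.induction_on with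
  | empty => rw [pst_empty]; simp
  | insert t T ht ih =>
    rw [Finset.prod_insert ht]
    have h1 := card_eq_orb_mul (pst Y T) t
    rw [pst_pst] at h1
    have h2 : (orb (pst Y T) t).card ≤ (orb Y t).card :=
      Finset.card_le_card (orb_mono (pst_le Y T) t)
    have h3 : T ∪ {t} = insert t T := by
      rw [Finset.union_comm, ← Finset.insert_eq]
    rw [h3] at h1
    calc Nat.card Y ≤ Nat.card (pst Y T) * ∏ t ∈ T, (orb Y t).card := ih
      _ = (orb (pst Y T) t).card * Nat.card (pst Y (insert t T)) * ∏ t ∈ T, (orb Y t).card := by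
          rw [h1]
      _ ≤ (orb Y t).card * Nat.card (pst Y (insert t T)) * ∏ t ∈ T, (orb Y t).card :=
          Nat.mul_le_mul_right _ (Nat.mul_le_mul_right _ h2)
      _ = Nat.card (pst Y (insert t T)) * ((orb Y t).card * ∏ t ∈ T, (orb Y t).card) := by ring

theorem card_le_pot {α : Type*} [Fintype α] (Y : Subgroup (Perm α)) : Nat.card Y ≤ pot Y := by
  have h := card_le_pst Y Finset.univ
  have h1 : pst Y Finset.univ = ⊥ := by
    rw [eq_bot_iff]
    intro g hg
    rw [Subgroup.mem_bot]
    ext x
    exact hg.2 x (Finset.mem_univ x)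
  have h2 : Nat.card (⊥ : Subgroup (Perm α)) = 1 := Subgroup.card_bot
  rw [h1, h2, one_mul] at h
  exact h

end Pool.Agent.SDA
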