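import Pool.Agent.SDA.Word

/-! # SDA-6: commuting conjugates (sections 4a, 4b, 4d) -/

set_option autoImplicit false
open scoped BigOperators Pointwise Nat
open Equiv

namespace Pool.Agent.SDA

open Classical in
private theorem comm_half {α : Type*} [Fintype α] (H : Subgroup (Perm α)) (x : α)
    (hx : ∃ h ∈ H, h x ≠ x) :
    (Finset.univ.filter fun h : Perm α => h ∈ H).card ≤
      2 * (Finset.univ.filter fun h : Perm α => h ∈ H ∧ h x ≠ x).card := by
  obtain ⟨h0, hh0, hx0⟩ := hx
  have h1 : (Finset.univ.filter fun h : Perm α => h ∈ H ∧ h x = x).card ≤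
      (Finset.univ.filter fun h : Perm α => h ∈ H ∧ h x ≠ x).card := by
    refine Finset.card_le_card_of_injOn (fun h => h0 * h) ?_ ?_
    · intro h hh
      simp only [Finset.coe_filter, Finset.mem_univ, true_and, Set.mem_ofPred_eq] at hh ⊢
      exact ⟨H.mul_mem hh0 hh.1, by rw [Perm.mul_apply, hh.2]; exact hx0⟩
    · intro a _ b _ hab
      exact mul_left_cancel hab
  have h2 : (Finset.univ.filter fun h : Perm α => h ∈ H).card =
      (Finset.univ.filter fun h : Perm α => h ∈ H ∧ h x = x).card +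
      (Finset.univ.filter fun h : Perm α => h ∈ H ∧ h x ≠ x).card := by
    rw [← Finset.card_filter_add_card_filter_not (s := Finset.univ.filter fun h : Perm α => h ∈ H)
      (fun h => h x = x), Finset.filter_filter, Finset.filter_filter]
  omega

open Classical in
private theorem comm_nfix_conj {α : Type*} [Fintype α] (K : Subgroup (Perm α)) (g : Perm α) :
    (Finset.univ.filter fun x : α => ∀ k ∈ K, (g * k * g⁻¹) x = x).card = nfix K := by
  unfold nfix
  symm
  refine Finset.card_bij' (fun x _ => g x) (fun x _ => g⁻¹ x) ?_ ?_ ?_ ?_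
  · intro x hx
    simp only [Finset.mem_filter, Finset.mem_univ, true_and] at hx ⊢
    intro k hk
    simp [Perm.mul_apply, hx k hk]
  · intro x hx
    simp only [Finset.mem_filter, Finset.mem_univ, true_and] at hx ⊢
    intro k hk
    have := hx k hk
    rw [Perm.mul_apply, Perm.mul_apply] at this
    rw [Perm.eq_inv_iff_eq]
    exact this
  · intro x _; simp
  · intro x _; simp

open Classical in
theorem exists_hk {α : Type*} [Fintype α] (H K : Subgroup (Perm α)) (g : Perm α) :
    ∃ h ∈ H, ∃ k ∈ K, Fintype.card α ≤ nfix H + nfix K +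
      4 * (Finset.univ.filter fun x => h x ≠ x ∧ (g * k * g⁻¹) x ≠ x).card := by
  by_contra hcon
  push Not at hcon
  set HF := Finset.univ.filter fun h : Perm α => h ∈ H with hHF
  set KF := Finset.univ.filter fun h : Perm α => h ∈ K with hKF
  have memH : ∀ h, h ∈ HF ↔ h ∈ H := by simp [hHF]
  have memK : ∀ h, h ∈ KF ↔ h ∈ K := by simp [hKF]
  -- the double sum
  have hsum : ∑ h ∈ HF, ∑ k ∈ KF,
      (Finset.univ.filter fun x => h x ≠ x ∧ (g * k * g⁻¹) x ≠ x).card =
      ∑ x : α, (Finset.univ.filter fun h : Perm α => h ∈ H ∧ h x ≠ x).card *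
        (Finset.univ.filter fun k : Perm α => k ∈ K ∧ (g * k * g⁻¹) x ≠ x).card := by
    have e1 : ∀ h k : Perm α,
        (Finset.univ.filter fun x => h x ≠ x ∧ (g * k * g⁻¹) x ≠ x).card =
        ∑ x : α, (if h x ≠ x then 1 else 0) * (if (g * k * g⁻¹) x ≠ x then 1 else 0) := by
      intro h k
      rw [Finset.card_filter]
      refine Finset.sum_congr rfl fun x _ => ?_
      by_cases h1 : h x ≠ x <;> simp [h1]
    have e2 : ∀ x : α, (Finset.univ.filter fun h : Perm α => h ∈ H ∧ h x ≠ x).card =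
        ∑ h ∈ HF, (if h x ≠ x then 1 else 0) := by
      intro x
      rw [← Finset.card_filter, hHF, Finset.filter_filter]
    have e3 : ∀ x : α, (Finset.univ.filter fun k : Perm α => k ∈ K ∧ (g * k * g⁻¹) x ≠ x).card =
        ∑ k ∈ KF, (if (g * k * g⁻¹) x ≠ x then 1 else 0) := by
      intro x
      rw [← Finset.card_filter, hKF, Finset.filter_filter]
    simp only [e1, e2, e3]
    simp only [Finset.sum_mul_sum]
    exact (Finset.sum_congr rfl fun h _ => Finset.sum_comm).trans Finset.sum_comm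
  have hlow : ∀ x : α, (if (∀ h ∈ H, h x = x) ∨ (∀ k ∈ K, (g * k * g⁻¹) x = x) then 0 else
      HF.card * KF.card) ≤ 4 * ((Finset.univ.filter fun h : Perm α => h ∈ H ∧ h x ≠ x).card *
        (Finset.univ.filter fun k : Perm α => k ∈ K ∧ (g * k * g⁻¹) x ≠ x).card) := by
    intro x
    split_ifs with hx
    · exact Nat.zero_le _
    · push Not at hx
      have h1 := comm_half H x hx.1
      have h2 : KF.card ≤ 2 *
          (Finset.univ.filter fun k : Perm α => k ∈ K ∧ (g * k * g⁻¹) x ≠ x).card := by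
        obtain ⟨k0, hk0, hk1⟩ := hx.2
        have h3 := comm_half K (g⁻¹ x) ⟨k0, hk0, fun h => hk1 (by
          rw [Perm.mul_apply, Perm.mul_apply, h]; simp)⟩
        refine h3.trans (le_of_eq ?_)
        congr 2
        ext k
        simp only [Finset.mem_filter, Finset.mem_univ, true_and]
        refine and_congr_right fun _ => not_congr ?_
        rw [Perm.mul_apply, Perm.mul_apply, Perm.eq_inv_iff_eq]
      calc HF.card * KF.card ≤ (2 * _) * (2 * _) := Nat.mul_le_mul h1 h2
        _ = _ := by ring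
  have hcnt : Fintype.card α ≤ nfix H + nfix K + (Finset.univ.filter fun x : α =>
      ¬ ((∀ h ∈ H, h x = x) ∨ (∀ k ∈ K, (g * k * g⁻¹) x = x))).card := by
    have h1 := Finset.card_filter_add_card_filter_not (s := (Finset.univ : Finset α))
      (fun x : α => (∀ h ∈ H, h x = x) ∨ (∀ k ∈ K, (g * k * g⁻¹) x = x))
    have h2 : (Finset.univ.filter fun x : α =>
        (∀ h ∈ H, h x = x) ∨ (∀ k ∈ K, (g * k * g⁻¹) x = x)).card ≤ nfix H + nfix K := by
      rw [Finset.filter_or, ← comm_nfix_conj K g]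
      exact Finset.card_union_le _ _
    rw [Finset.card_univ] at h1
    omega
  have hpos : 0 < HF.card * KF.card :=
    Nat.mul_pos (Finset.card_pos.2 ⟨1, (memH 1).2 H.one_mem⟩)
      (Finset.card_pos.2 ⟨1, (memK 1).2 K.one_mem⟩)
  have hS : (Finset.univ.filter fun x : α =>
      ¬ ((∀ h ∈ H, h x = x) ∨ (∀ k ∈ K, (g * k * g⁻¹) x = x))).card * (HF.card * KF.card) ≤
      4 * ∑ h ∈ HF, ∑ k ∈ KF,
      (Finset.univ.filter fun x => h x ≠ x ∧ (g * k * g⁻¹) x ≠ x).card := by
    rw [hsum, Finset.mul_sum]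
    refine le_trans (le_of_eq ?_) (Finset.sum_le_sum fun x _ => hlow x)
    rw [← smul_eq_mul, ← Finset.sum_const, Finset.sum_filter]
    refine Finset.sum_congr rfl fun x _ => ?_
    split_ifs <;> simp_all
  have hup : 4 * ∑ h ∈ HF, ∑ k ∈ KF,
      (Finset.univ.filter fun x => h x ≠ x ∧ (g * k * g⁻¹) x ≠ x).card +
      HF.card * KF.card * (nfix H + nfix K) < HF.card * KF.card * Fintype.card α := by
    have e1 : 4 * ∑ h ∈ HF, ∑ k ∈ KF,
        (Finset.univ.filter fun x => h x ≠ x ∧ (g * k * g⁻¹) x ≠ x).card +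
        HF.card * KF.card * (nfix H + nfix K) = ∑ h ∈ HF, ∑ k ∈ KF, (nfix H + nfix K + 4 *
        (Finset.univ.filter fun x => h x ≠ x ∧ (g * k * g⁻¹) x ≠ x).card) := by
      simp only [Finset.sum_add_distrib, Finset.sum_const, smul_eq_mul, Finset.mul_sum]
      ring
    have e2 : HF.card * KF.card * Fintype.card α = ∑ h ∈ HF, ∑ k ∈ KF, Fintype.card α := by
      simp only [Finset.sum_const, smul_eq_mul]
      ring
    rw [e1, e2]
    refine Finset.sum_lt_sum_of_nonempty ⟨1, (memH 1).2 H.one_mem⟩ fun h hh => ?_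
    refine Finset.sum_lt_sum_of_nonempty ⟨1, (memK 1).2 K.one_mem⟩ fun k hk => ?_
    exact hcon h ((memH h).1 hh) k ((memK k).1 hk)
  have hfin := Nat.mul_le_mul_left (HF.card * KF.card) hcnt
  nlinarith

theorem count_comm {α : Type*} [Fintype α] (H K : Subgroup (Perm α)) (s : ℕ)
    (hs : 64 * s + nfix H + nfix K ≤ Fintype.card α) :
    Nat.card {g : Perm α // (H : Set (Perm α)) * (K.map (MulAut.conj g).toMonoidHom : Set (Perm α)) =
        (K.map (MulAut.conj g).toMonoidHom : Set (Perm α)) * (H : Set (Perm α))} * s ! ≤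
      Nat.card H ^ 2 * Nat.card K ^ 2 * 4 ^ (Fintype.card α) * (Fintype.card α) ! := by
  classical
  -- the quadruple determined by `g`
  set P : Perm α → Prop := fun g => (H : Set (Perm α)) *
    (K.map (MulAut.conj g).toMonoidHom : Set (Perm α)) =
        (K.map (MulAut.conj g).toMonoidHom : Set (Perm α)) * (H : Set (Perm α)) with hP
  set Q : (H × K) × (H × K) → Perm α → Prop := fun q g =>
    (q.1.1 : Perm α) * (g * (q.1.2 : Perm α) * g⁻¹) = (g * (q.2.2 : Perm α) * g⁻¹) * q.2.1 ∧
    16 * s ≤ (Finset.univ.filter fun x => (q.1.1 : Perm α) x ≠ x ∧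
      (g * (q.1.2 : Perm α) * g⁻¹) x ≠ x).card with hQ
  have hex : ∀ g, P g → ∃ q, Q q g := by
    intro g hg
    obtain ⟨h, hh, k, hk, hle⟩ := exists_hk H K g
    have hmem : h * (g * k * g⁻¹) ∈ (H : Set (Perm α)) *
        (K.map (MulAut.conj g).toMonoidHom : Set (Perm α)) := by
      refine Set.mul_mem_mul hh ?_
      exact ⟨k, hk, by simp [MulAut.conj_apply]⟩
    rw [hg] at hmem
    obtain ⟨x, ⟨k', hk', rfl⟩, h', hh', heq⟩ := Set.mem_mul.1 hmem
    refine ⟨((⟨h, hh⟩, ⟨k, hk⟩), (⟨h', hh'⟩, ⟨k', hk'⟩)), ?_, ?_⟩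
    · simp only
      rw [← heq]
      simp [MulAut.conj_apply]
    · simp only
      convert_to 16 * s ≤ (Finset.univ.filter fun x => h x ≠ x ∧ (g * k * g⁻¹) x ≠ x).card
      omega
  have hcard : Nat.card {g : Perm α // P g} ≤
      ∑ q : (H × K) × (H × K), Nat.card {g : Perm α // Q q g} := by
    simp only [Nat.card_eq_fintype_card, Fintype.card_subtype]
    refine le_trans (Finset.card_le_card (t := Finset.univ.biUnion fun q =>
      Finset.univ.filter fun g => Q q g) ?_) Finset.card_biUnion_le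
    intro g hg
    rw [Finset.mem_filter] at hg
    obtain ⟨q, hq⟩ := hex g hg.2
    rw [Finset.mem_biUnion]
    exact ⟨q, Finset.mem_univ _, Finset.mem_filter.2 ⟨Finset.mem_univ _, hq⟩⟩
  calc Nat.card {g : Perm α // P g} * s !
      ≤ (∑ q : (H × K) × (H × K), Nat.card {g : Perm α // Q q g}) * s ! :=
        Nat.mul_le_mul_right _ hcard
    _ = ∑ q : (H × K) × (H × K), Nat.card {g : Perm α // Q q g} * s ! := Finset.sum_mul _ _ _
    _ ≤ ∑ q : (H × K) × (H × K), 4 ^ (Fintype.card α) * (Fintype.card α) ! := by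
        refine Finset.sum_le_sum fun q _ => ?_
        exact count_g (q.1.1 : Perm α) (q.1.2 : Perm α) (q.2.1 : Perm α) (q.2.2 : Perm α) s
    _ = Nat.card H ^ 2 * Nat.card K ^ 2 * 4 ^ (Fintype.card α) * (Fintype.card α) ! := by
        rw [Finset.sum_const, Finset.card_univ, smul_eq_mul, Fintype.card_prod, Fintype.card_prod,
          Nat.card_eq_fintype_card, Nat.card_eq_fintype_card]
        ring

end Pool.Agent.SDA
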