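import Pool.Agent.SDA.Defs

/-!
# Counting subgroups (section 3)
-/

set_option autoImplicit false
open scoped BigOperators Pointwise Nat
open Equiv

namespace Pool.Agent.SDA

/-! ### Lower bounds for the number of subgroups -/

theorem cnt_card_congr {G H : Type*} [Group G] [Group H] (e : G ≃* H) :
    Nat.card (Subgroup G) = Nat.card (Subgroup H) :=
  Nat.card_congr e.mapSubgroup.toEquiv

theorem cnt_card_le {G H : Type*} [Group G] [Group H] [Finite H] (f : G →* H)
    (hf : Function.Injective f) : Nat.card (Subgroup G) ≤ Nat.card (Subgroup H) :=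
  Nat.card_le_card_of_injective (fun K => K.map f) (Subgroup.map_injective hf)

theorem cnt_card_prod {G H : Type*} [Group G] [Group H] [Finite G] [Finite H] :
    Nat.card (Subgroup G) * Nat.card (Subgroup H) ≤ Nat.card (Subgroup (G × H)) := by
  rw [← Nat.card_prod]
  refine Nat.card_le_card_of_injective (fun p => p.1.prod p.2) ?_
  rintro ⟨A, B⟩ ⟨A', B'⟩ h
  have h : A.prod B = A'.prod B' := h
  have h1 : A = A' := by
    ext x
    have := SetLike.ext_iff.1 h (x, 1)
    simpa [Subgroup.mem_prod, one_mem] using this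
  have h2 : B = B' := by
    ext x
    have := SetLike.ext_iff.1 h (1, x)
    simpa [Subgroup.mem_prod, one_mem] using this
  rw [h1, h2]

theorem s_add (a b : ℕ) : s a * s b ≤ s (a + b) := by
  unfold s
  refine cnt_card_prod.trans ?_
  refine (cnt_card_le (Perm.sumCongrHom (Fin a) (Fin b)) Perm.sumCongrHom_injective).trans ?_
  exact (cnt_card_congr (finSumFinEquiv.permCongrHom)).le

theorem cnt_s_pos (a : ℕ) : 0 < s a := Nat.card_pos

theorem s_mono {a b : ℕ} (h : a ≤ b) : s a ≤ s b := by
  obtain ⟨c, rfl⟩ := Nat.exists_eq_add_of_le h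
  exact (Nat.le_mul_of_pos_right _ (cnt_s_pos c)).trans (s_add a c)

/-- translation action of `F_2^ι` on `ι × F_2` -/
def cntHom (ι : Type*) : Multiplicative (ι → ZMod 2) →* Perm (ι × ZMod 2) where
  toFun v :=
    { toFun := fun p => (p.1, p.2 + Multiplicative.toAdd v p.1)
      invFun := fun p => (p.1, p.2 - Multiplicative.toAdd v p.1)
      left_inv := fun p => by simp
      right_inv := fun p => by simp }
  map_one' := by
    ext p <;> simp
  map_mul' := by
    intro v w
    ext p
    · simp
    · simp [add_comm, add_left_comm]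

theorem cntHom_injective (ι : Type*) : Function.Injective (cntHom ι) := by
  intro v w h
  have : Multiplicative.toAdd v = Multiplicative.toAdd w := by
    funext i
    have := congrArg (fun g : Perm (ι × ZMod 2) => (g (i, 0)).2) h
    simpa [cntHom] using this
  exact Multiplicative.toAdd.injective this

/-- graph of a matrix -/
def cntGraph {d : ℕ} (M : Fin d → Fin d → ZMod 2) : AddSubgroup (Fin d ⊕ Fin d → ZMod 2) where
  carrier := {v | ∀ i, v (Sum.inr i) = ∑ j, M i j * v (Sum.inl j)}
  zero_mem' := by
    intro i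
    simp
  add_mem' := by
    intro v w hv hw i
    have hv : ∀ i, v (Sum.inr i) = ∑ j, M i j * v (Sum.inl j) := hv
    have hw : ∀ i, w (Sum.inr i) = ∑ j, M i j * w (Sum.inl j) := hw
    simp only [Pi.add_apply]
    rw [hv i, hw i, ← Finset.sum_add_distrib]
    exact Finset.sum_congr rfl (fun j _ => by ring)
  neg_mem' := by
    intro v hv i
    have hv : ∀ i, v (Sum.inr i) = ∑ j, M i j * v (Sum.inl j) := hv
    simp only [Pi.neg_apply]
    rw [hv i, ← Finset.sum_neg_distrib]
    exact Finset.sum_congr rfl (fun j _ => by ring)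

theorem cntGraph_injective (d : ℕ) :
    Function.Injective (cntGraph : (Fin d → Fin d → ZMod 2) → _) := by
  intro M N h
  funext i j
  let v : Fin d ⊕ Fin d → ZMod 2 := Sum.elim (Pi.single j 1) (fun i => M i j)
  have hv : v ∈ cntGraph M := by
    intro i
    simp [v, Pi.single_apply]
  rw [h] at hv
  have := hv i
  simpa [v, Pi.single_apply] using this

theorem s_lower (d : ℕ) : 2 ^ (d ^ 2) ≤ s (4 * d) := by
  have h1 : Nat.card (Fin d → Fin d → ZMod 2) = 2 ^ (d ^ 2) := by
    simp [Nat.card_eq_fintype_card, ← pow_mul, sq]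
  rw [← h1]
  have h2 : Nat.card (Fin d → Fin d → ZMod 2) ≤
      Nat.card (Subgroup (Multiplicative (Fin d ⊕ Fin d → ZMod 2))) := by
    refine Nat.card_le_card_of_injective
      (fun M => AddSubgroup.toSubgroup (cntGraph M)) ?_
    exact AddSubgroup.toSubgroup.injective.comp (cntGraph_injective d)
  refine h2.trans ((cnt_card_le (cntHom (Fin d ⊕ Fin d)) (cntHom_injective _)).trans ?_)
  have e : (Fin d ⊕ Fin d) × ZMod 2 ≃ Fin (4 * d) := by
    refine Fintype.equivFinOfCardEq ?_
    simp
    ring
  exact (cnt_card_congr e.permCongrHom).le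

/-! ### The class `Cls` -/

/-- numbering of the complement of `T` -/
noncomputable def cntEquiv {n k : ℕ} (T : {T : Finset (Fin n) // T.card = k}) :
    {x : Fin n // x ∉ T.1} ≃ Fin (n - k) :=
  Fintype.equivFinOfCardEq (by
    rw [Fintype.card_subtype_compl]
    simp [T.2])

/-- the permutations of the complement of `T`, numbered by `Fin (n - k)` -/
noncomputable def cntEmb {n k : ℕ} (T : {T : Finset (Fin n) // T.card = k}) :
    Perm (Fin (n - k)) →* Perm (Fin n) :=
  (Perm.ofSubtype (p := fun x => x ∉ T.1)).comp (cntEquiv T).symm.permCongrHom.toMonoidHom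

theorem mem_range_cntEmb {n k : ℕ} (T : {T : Finset (Fin n) // T.card = k}) (g : Perm (Fin n))
    (hg : ∀ t ∈ T.1, g t = t) : g ∈ (cntEmb T).range := by
  have h1 : ∀ x, g x ∉ T.1 ↔ x ∉ T.1 := by
    intro x
    constructor
    · intro hx h
      rw [hg x h] at hx
      exact hx h
    · intro hx hgx
      have := hg (g x) hgx
      exact hx (by rw [g.injective this] at hgx; exact hgx)
  have h2 : Perm.ofSubtype (g.subtypePerm (p := fun x => x ∉ T.1) h1) = g := by
    apply Perm.ofSubtype_subtypePerm
    intro x hx hxT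
    exact hx (hg x hxT)
  refine ⟨(cntEquiv T).permCongr (g.subtypePerm (p := fun x => x ∉ T.1) h1), ?_⟩
  change Perm.ofSubtype ((cntEquiv T).symm.permCongr
    ((cntEquiv T).permCongr (g.subtypePerm (p := fun x => x ∉ T.1) h1))) = g
  have h3 : (cntEquiv T).symm.permCongr
      ((cntEquiv T).permCongr (g.subtypePerm (p := fun x => x ∉ T.1) h1)) =
      g.subtypePerm (p := fun x => x ∉ T.1) h1 := by
    ext x
    simp [Equiv.permCongr_apply]
  rw [h3, h2]

theorem card_Cls_le (n k r : ℕ) (_hk : k ≤ n) :
    Nat.card (Cls n k r) ≤ 2 ^ n * s (n - k) * n ! ^ r := by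
  classical
  have hT : Nat.card {T : Finset (Fin n) // T.card = k} ≤ 2 ^ n := by
    calc Nat.card {T : Finset (Fin n) // T.card = k} ≤ Nat.card (Finset (Fin n)) :=
          Nat.card_le_card_of_injective _ Subtype.val_injective
      _ = 2 ^ n := by simp [Nat.card_eq_fintype_card]
  have hF : Nat.card (Fin r → Perm (Fin n)) = n ! ^ r := by
    simp [Nat.card_eq_fintype_card, Fintype.card_perm]
  let Φ : ({T : Finset (Fin n) // T.card = k} × Subgroup (Perm (Fin (n - k)))) ×
      (Fin r → Perm (Fin n)) → Subgroup (Perm (Fin n)) :=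
    fun q => q.1.2.map (cntEmb q.1.1) ⊔ Subgroup.closure (Set.range q.2)
  have hsub : Cls n k r ⊆ Set.range Φ := by
    rintro Y ⟨T, X, hTk, hXr, hY⟩
    obtain ⟨f, hf⟩ : ∃ f : Fin r → Perm (Fin n),
        Subgroup.closure (Set.range f) = Subgroup.closure (X : Set (Perm (Fin n))) := by
      refine ⟨fun i => if h : i.1 < X.card then (X.equivFin.symm ⟨i.1, h⟩ : Perm (Fin n)) else 1,
        le_antisymm ?_ ?_⟩
      · rw [Subgroup.closure_le]
        rintro _ ⟨i, rfl⟩
        by_cases h : i.1 < X.card
        · simp only [h, dif_pos]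
          exact Subgroup.subset_closure (X.equivFin.symm ⟨i.1, h⟩).2
        · simp only [h, dif_neg, not_false_iff]
          exact one_mem _
      · rw [Subgroup.closure_le]
        intro x hx
        have hx' : x ∈ X := hx
        refine Subgroup.subset_closure ⟨⟨(X.equivFin ⟨x, hx'⟩).1,
          lt_of_lt_of_le (X.equivFin ⟨x, hx'⟩).2 hXr⟩, ?_⟩
        simp
    refine ⟨((⟨T, hTk⟩, (pst Y T).comap (cntEmb ⟨T, hTk⟩)), f), ?_⟩
    change ((pst Y T).comap (cntEmb ⟨T, hTk⟩)).map (cntEmb ⟨T, hTk⟩) ⊔
      Subgroup.closure (Set.range f) = Y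
    rw [Subgroup.map_comap_eq_self, hf, ← hY]
    intro g hg
    exact mem_range_cntEmb ⟨T, hTk⟩ g hg.2
  calc Nat.card (Cls n k r) ≤ Nat.card (Set.range Φ) :=
        Nat.card_mono (Set.toFinite _) hsub
    _ ≤ Nat.card (({T : Finset (Fin n) // T.card = k} × Subgroup (Perm (Fin (n - k)))) ×
          (Fin r → Perm (Fin n))) :=
        Nat.card_le_card_of_surjective _ Set.rangeFactorization_surjective
    _ = Nat.card {T : Finset (Fin n) // T.card = k} * s (n - k) * n ! ^ r := by
        rw [Nat.card_prod, Nat.card_prod, hF]; rfl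
    _ ≤ 2 ^ n * s (n - k) * n ! ^ r := by gcongr

theorem card_Cls_mul_le (n k r : ℕ) (hk : k ≤ n) :
    Nat.card (Cls n k r) * 2 ^ ((k / 4) ^ 2) ≤ 2 ^ n * n ! ^ r * s n := by
  have h1 : 2 ^ ((k / 4) ^ 2) ≤ s k :=
    (s_lower (k / 4)).trans (s_mono (by omega))
  have h2 : s (n - k) * s k ≤ s n := by
    have := s_add (n - k) k
    rwa [Nat.sub_add_cancel hk] at this
  calc Nat.card (Cls n k r) * 2 ^ ((k / 4) ^ 2)
      ≤ (2 ^ n * s (n - k) * n ! ^ r) * s k := Nat.mul_le_mul (card_Cls_le n k r hk) h1
    _ = 2 ^ n * n ! ^ r * (s (n - k) * s k) := by ring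
    _ ≤ 2 ^ n * n ! ^ r * s n := Nat.mul_le_mul_left _ h2

/-! ### Subgroups of the alternating group -/

theorem s_le_sA (n : ℕ) : s n ≤ (1 + n !) * sA n := by
  classical
  have hO : Nat.card (Option (Perm (Fin n))) = 1 + n ! := by
    simp [Nat.card_eq_fintype_card, Fintype.card_perm, add_comm]
  let Φ : Option (Perm (Fin n)) × {K : Subgroup (Perm (Fin n)) // K ≤ alternatingGroup (Fin n)} →
      Subgroup (Perm (Fin n)) := fun q =>
    q.2.1 ⊔ (match q.1 with
      | none => ⊥
      | some x => Subgroup.closure {x})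
  have hsurj : Function.Surjective Φ := by
    intro K
    by_cases hK : K ≤ alternatingGroup (Fin n)
    · exact ⟨(none, ⟨K, hK⟩), sup_bot_eq K⟩
    · obtain ⟨x, hxK, hx⟩ := SetLike.not_le_iff_exists.1 hK
      refine ⟨(some x, ⟨K ⊓ alternatingGroup (Fin n), inf_le_right⟩), ?_⟩
      change (K ⊓ alternatingGroup (Fin n)) ⊔ Subgroup.closure {x} = K
      apply le_antisymm
      · refine sup_le inf_le_left ?_
        rw [Subgroup.closure_le, Set.singleton_subset_iff]
        exact hxK
      · intro y hy
        by_cases hyA : y ∈ alternatingGroup (Fin n)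
        · exact Subgroup.mem_sup_left ⟨hy, hyA⟩
        · have hsx : Perm.sign x = -1 := by
            rcases Int.units_eq_one_or (Perm.sign x) with h | h
            · exact absurd (Perm.mem_alternatingGroup.2 h) hx
            · exact h
          have hsy : Perm.sign y = -1 := by
            rcases Int.units_eq_one_or (Perm.sign y) with h | h
            · exact absurd (Perm.mem_alternatingGroup.2 h) hyA
            · exact h
          have h1 : y * x⁻¹ ∈ K ⊓ alternatingGroup (Fin n) := by
            refine ⟨K.mul_mem hy (K.inv_mem hxK), ?_⟩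
            change y * x⁻¹ ∈ alternatingGroup (Fin n)
            rw [Perm.mem_alternatingGroup, map_mul, Perm.sign_inv, hsx, hsy]
            rfl
          have h2 : y = (y * x⁻¹) * x := by group
          rw [h2]
          exact mul_mem (Subgroup.mem_sup_left h1)
            (Subgroup.mem_sup_right (Subgroup.subset_closure (Set.mem_singleton x)))
  calc s n = Nat.card (Subgroup (Perm (Fin n))) := rfl
    _ ≤ Nat.card (Option (Perm (Fin n)) ×
          {K : Subgroup (Perm (Fin n)) // K ≤ alternatingGroup (Fin n)}) :=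
        Nat.card_le_card_of_surjective _ hsurj
    _ = (1 + n !) * sA n := by rw [Nat.card_prod, hO]; rfl

end Pool.Agent.SDA
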