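import Mathlib

/-!
# Relative subgroup commutativity degree of `A_n` in `S_n`: definitions
-/

set_option autoImplicit false
open scoped BigOperators Pointwise Nat
open Equiv

namespace Pool.Agent.SDA

/-- The relative subgroup commutativity degree `sd(H, G)`: the proportion of pairs `(H₁, G₁)`
with `H₁` a subgroup of `H` and `G₁` a subgroup of `G` such that `H₁ G₁ = G₁ H₁`. -/
noncomputable def sd {G : Type*} [Group G] (H : Subgroup G) : ℝ :=
  (Nat.card {p : Subgroup G × Subgroup G //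
      p.1 ≤ H ∧ (p.1 : Set G) * (p.2 : Set G) = (p.2 : Set G) * (p.1 : Set G)} : ℝ) /
    ((Nat.card {K : Subgroup G // K ≤ H} : ℝ) * (Nat.card (Subgroup G) : ℝ))

section

variable {α : Type*}

/-- The pointwise stabiliser of `T` in `Y`. -/
def pst (Y : Subgroup (Perm α)) (T : Finset α) : Subgroup (Perm α) where
  carrier := {g | g ∈ Y ∧ ∀ t ∈ T, g t = t}
  mul_mem' := by
    rintro a b ⟨ha, ha'⟩ ⟨hb, hb'⟩
    exact ⟨Y.mul_mem ha hb, fun t ht => by rw [Perm.mul_apply, hb' t ht, ha' t ht]⟩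
  one_mem' := ⟨Y.one_mem, fun _ _ => rfl⟩
  inv_mem' := by
    rintro a ⟨ha, ha'⟩
    refine ⟨Y.inv_mem ha, fun t ht => ?_⟩
    rw [Perm.inv_eq_iff_eq]
    exact (ha' t ht).symm

theorem mem_pst {Y : Subgroup (Perm α)} {T : Finset α} {g : Perm α} :
    g ∈ pst Y T ↔ g ∈ Y ∧ ∀ t ∈ T, g t = t := Iff.rfl

theorem pst_le (Y : Subgroup (Perm α)) (T : Finset α) : pst Y T ≤ Y := fun _ h => h.1

theorem pst_empty (Y : Subgroup (Perm α)) : pst Y ∅ = Y := by
  ext g
  simp [mem_pst]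

theorem pst_pst [DecidableEq α] (Y : Subgroup (Perm α)) (T T' : Finset α) :
    pst (pst Y T) T' = pst Y (T ∪ T') := by
  ext g
  simp only [mem_pst, Finset.mem_union]
  constructor
  · rintro ⟨⟨h1, h2⟩, h3⟩
    exact ⟨h1, fun t ht => ht.elim (h2 t) (h3 t)⟩
  · rintro ⟨h1, h2⟩
    exact ⟨⟨h1, fun t ht => h2 t (Or.inl ht)⟩, fun t ht => h2 t (Or.inr ht)⟩

theorem pst_anti (Y : Subgroup (Perm α)) {T T' : Finset α} (h : T ⊆ T') : pst Y T' ≤ pst Y T :=
  fun _ hg => ⟨hg.1, fun t ht => hg.2 t (h ht)⟩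

variable [Fintype α]

open Classical in
/-- The orbit of `a` under `Y`, as a finite set. -/
noncomputable def orb (Y : Subgroup (Perm α)) (a : α) : Finset α :=
  Finset.univ.filter fun b => ∃ g ∈ Y, g a = b

theorem mem_orb {Y : Subgroup (Perm α)} {a b : α} : b ∈ orb Y a ↔ ∃ g ∈ Y, g a = b := by
  simp [orb]

theorem self_mem_orb (Y : Subgroup (Perm α)) (a : α) : a ∈ orb Y a :=
  mem_orb.2 ⟨1, Y.one_mem, rfl⟩

theorem orb_mono {Y Z : Subgroup (Perm α)} (h : Z ≤ Y) (a : α) : orb Z a ⊆ orb Y a := by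
  intro b hb
  obtain ⟨g, hg, rfl⟩ := mem_orb.1 hb
  exact mem_orb.2 ⟨g, h hg, rfl⟩

theorem orb_eq_of_mem {Y : Subgroup (Perm α)} {a b : α} (h : b ∈ orb Y a) : orb Y b = orb Y a := by
  obtain ⟨g, hg, rfl⟩ := mem_orb.1 h
  ext c
  rw [mem_orb, mem_orb]
  constructor
  · rintro ⟨x, hx, rfl⟩
    exact ⟨x * g, Y.mul_mem hx hg, rfl⟩
  · rintro ⟨x, hx, rfl⟩
    exact ⟨x * g⁻¹, Y.mul_mem hx (Y.inv_mem hg), by simp⟩

theorem mem_orb_symm {Y : Subgroup (Perm α)} {a b : α} (h : b ∈ orb Y a) : a ∈ orb Y b := by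
  rw [orb_eq_of_mem h]; exact self_mem_orb Y a

/-- The product of the orbit sizes over all points. -/
noncomputable def pot (Y : Subgroup (Perm α)) : ℕ := ∏ a, (orb Y a).card

open Classical in
/-- The number of points fixed by `Y`. -/
noncomputable def nfix (Y : Subgroup (Perm α)) : ℕ :=
  (Finset.univ.filter fun a => ∀ g ∈ Y, g a = a).card

end

/-- The number of subgroups of the symmetric group on `n` points. -/
noncomputable def s (n : ℕ) : ℕ := Nat.card (Subgroup (Perm (Fin n)))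

/-- The number of subgroups of the alternating group on `n` points. -/
noncomputable def sA (n : ℕ) : ℕ :=
  Nat.card {K : Subgroup (Perm (Fin n)) // K ≤ alternatingGroup (Fin n)}

/-- The subgroups `Y` that are generated by the pointwise stabiliser of `k` points and `r` further
elements. -/
def Cls (n k r : ℕ) : Set (Subgroup (Perm (Fin n))) :=
  {Y | ∃ (T : Finset (Fin n)) (X : Finset (Perm (Fin n))), T.card = k ∧ X.card ≤ r ∧
    Y = pst Y T ⊔ Subgroup.closure (X : Set (Perm (Fin n)))}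

end Pool.Agent.SDA
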