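import Pool.Agent.SDA.Defs

/-! The key step: when point stabilisers have nearly full orbits, a group is generated by the
pointwise stabiliser of `L` points and one more element. -/

set_option autoImplicit false
open scoped BigOperators Pointwise Nat
open Equiv

namespace Pool.Agent.SDA

namespace Key

theorem ap_inv {β : Type*} (y : Perm β) (x : β) : y (y⁻¹ x) = x := by simp

theorem inv_ap {β : Type*} (y : Perm β) (x : β) : y⁻¹ (y x) = x := by simp

theorem card_mul_rel {G : Type*} [Group G] {A B : Subgroup G} (h : A ≤ B) :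
    Nat.card A * A.relIndex B = Nat.card B := by
  have := Subgroup.relIndex_mul_relIndex ⊥ A B bot_le h
  rwa [Subgroup.relIndex_bot_left, Subgroup.relIndex_bot_left] at this

theorem rel_ne {G : Type*} [Group G] [Finite G] (A B : Subgroup G) : A.relIndex B ≠ 0 :=
  Subgroup.index_ne_zero_of_finite

variable {α : Type*} [Fintype α]

theorem card_eq (Y : Subgroup (Perm α)) (a : α) :
    Nat.card Y = (orb Y a).card * Nat.card (pst Y {a}) := by
  classical
  have h1 := MulAction.card_orbit_mul_card_stabilizer_eq_card_group Y a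
  have h2 : Fintype.card (MulAction.orbit Y a) = (orb Y a).card := by
    rw [Fintype.card_of_subtype]
    intro b
    rw [mem_orb]
    constructor
    · rintro ⟨g, hg, rfl⟩
      exact ⟨⟨g, hg⟩, rfl⟩
    · rintro ⟨⟨g, hg⟩, rfl⟩
      exact ⟨g, hg, rfl⟩
  have h3 : Fintype.card (MulAction.stabilizer Y a) = Nat.card (pst Y {a}) := by
    rw [← Nat.card_eq_fintype_card]
    refine Nat.card_congr ⟨fun g => ⟨g.1.1, g.1.2, ?_⟩, fun g => ⟨⟨g.1, g.2.1⟩, ?_⟩, ?_, ?_⟩
    · intro t ht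
      rw [Finset.mem_singleton] at ht
      subst ht
      exact g.2
    · exact g.2.2 a (Finset.mem_singleton_self a)
    · intro g; rfl
    · intro g; rfl
  rw [h2, h3] at h1
  rw [Nat.card_eq_fintype_card]
  exact h1.symm

/-- The points before the `i`-th one. -/
def pre [DecidableEq α] (z : ℕ → α) (i : ℕ) : Finset α := (Finset.range i).image z

variable [DecidableEq α]

omit [Fintype α] in
theorem pre_succ (z : ℕ → α) (i : ℕ) : pre z (i + 1) = pre z i ∪ {z i} := by
  ext b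
  simp only [pre, Finset.mem_image, Finset.mem_range, Finset.mem_union, Finset.mem_singleton]
  constructor
  · rintro ⟨j, hj, rfl⟩
    rcases Nat.lt_succ_iff_lt_or_eq.1 hj with h | h
    · exact Or.inl ⟨j, h, rfl⟩
    · exact Or.inr (by rw [h])
  · rintro (⟨j, hj, rfl⟩ | rfl)
    · exact ⟨j, by omega, rfl⟩
    · exact ⟨i, by omega, rfl⟩

theorem card_chain (Y : Subgroup (Perm α)) (z : ℕ → α) (i : ℕ) :
    Nat.card Y = Nat.card (pst Y (pre z i)) *
      ∏ j ∈ Finset.range i, (orb (pst Y (pre z j)) (z j)).card := by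
  induction i with
  | zero =>
    simp [pre, pst_empty]
  | succ i ih =>
    rw [Finset.prod_range_succ, ih, card_eq (pst Y (pre z i)) (z i), pst_pst, ← pre_succ]
    ring

/-- `z` runs through big orbits. -/
def Good (Y : Subgroup (Perm α)) (Δ : Finset α) (c : ℕ) (z : ℕ → α) (i : ℕ) : Prop :=
  ∀ j < i, z j ∈ Δ ∧ Δ.card < (orb (pst Y (pre z j)) (z j)).card + c

theorem exists_good (Y : Subgroup (Perm α)) (Δ : Finset α) (c N : ℕ) (a : α) (ha : a ∈ Δ)
    (hrob : ∀ T : Finset α, T ⊆ Δ → T.card ≤ N →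
      ∃ b ∈ Δ, Δ.card < (orb (pst Y T) b).card + c) :
    ∃ z : ℕ → α, Good Y Δ c z (N + 1) := by
  have hrob' : ∀ T : Finset α, ∃ b ∈ Δ, T ⊆ Δ → T.card ≤ N →
      Δ.card < (orb (pst Y T) b).card + c := by
    intro T
    by_cases h : T ⊆ Δ ∧ T.card ≤ N
    · obtain ⟨b, hb, h1⟩ := hrob T h.1 h.2
      exact ⟨b, hb, fun _ _ => h1⟩
    · exact ⟨a, ha, fun h1 h2 => absurd ⟨h1, h2⟩ h⟩
  choose pick hp1 hp2 using hrob'
  let Zs : ℕ → Finset α := fun i => Nat.rec ∅ (fun _ T => T ∪ {pick T}) i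
  let z : ℕ → α := fun i => pick (Zs i)
  have hZ : ∀ i, Zs i = pre z i := by
    intro i
    induction i with
    | zero => simp [Zs, pre]
    | succ i ih =>
      rw [pre_succ, ← ih]
  refine ⟨z, fun j hj => ⟨hp1 _, ?_⟩⟩
  rw [← hZ]
  refine hp2 _ ?_ ?_
  · rw [hZ]
    intro b hb
    obtain ⟨i, -, rfl⟩ := Finset.mem_image.1 hb
    exact hp1 _
  · rw [hZ]
    refine (Finset.card_image_le).trans ?_
    rw [Finset.card_range]
    omega

/-- Two big orbits coincide. -/
theorem big_unique {Z : Subgroup (Perm α)} {Δ : Finset α} {c : ℕ} (hc : 2 * c ≤ Δ.card)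
    {b b' : α} (h1 : orb Z b ⊆ Δ) (h2 : orb Z b' ⊆ Δ) (h3 : Δ.card < (orb Z b).card + c)
    (h4 : Δ.card < (orb Z b').card + c) : b' ∈ orb Z b := by
  by_contra hno
  have hdis : Disjoint (orb Z b) (orb Z b') := by
    rw [Finset.disjoint_left]
    intro x hx hx'
    have e1 := orb_eq_of_mem hx
    have e2 := orb_eq_of_mem hx'
    apply hno
    rw [← e1, e2]
    exact self_mem_orb _ _
  have := Finset.card_le_card (Finset.union_subset h1 h2)
  rw [Finset.card_union_of_disjoint hdis] at this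
  omega

theorem mem_pst_conj {Y : Subgroup (Perm α)} {y : Perm α} (hy : y ∈ Y) {T T' : Finset α}
    (hT : ∀ t' ∈ T', y⁻¹ t' ∈ T) {g : Perm α} (hg : g ∈ pst Y T) : y * g * y⁻¹ ∈ pst Y T' := by
  refine ⟨Y.mul_mem (Y.mul_mem hy hg.1) (Y.inv_mem hy), fun t ht => ?_⟩
  rw [Perm.mul_apply, Perm.mul_apply, hg.2 _ (hT t ht), ap_inv]

theorem exists_conj (Y : Subgroup (Perm α)) (a : α) (c : ℕ) (hc : 2 * c ≤ (orb Y a).card)
    (z w : ℕ → α) (i : ℕ) (hz : Good Y (orb Y a) c z i) (hw : Good Y (orb Y a) c w i) :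
    ∃ y ∈ Y, ∀ j < i, y (z j) = w j := by
  induction i with
  | zero => exact ⟨1, Y.one_mem, by simp⟩
  | succ i ih =>
    obtain ⟨y, hy, hyz⟩ := ih (fun j hj => hz j (by omega)) (fun j hj => hw j (by omega))
    obtain ⟨hz1, hz2⟩ := hz i (by omega)
    obtain ⟨hw1, hw2⟩ := hw i (by omega)
    -- the image orbit
    have hT : ∀ t' ∈ pre w i, y⁻¹ t' ∈ pre z i := by
      intro t' ht'
      obtain ⟨j, hj, rfl⟩ := Finset.mem_image.1 ht'
      rw [Finset.mem_range] at hj
      rw [← hyz j hj, inv_ap]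
      exact Finset.mem_image.2 ⟨j, Finset.mem_range.2 hj, rfl⟩
    have hsize : (orb (pst Y (pre z i)) (z i)).card ≤ (orb (pst Y (pre w i)) (y (z i))).card := by
      refine Finset.card_le_card_of_injOn y ?_ (y.injective.injOn)
      intro b hb
      obtain ⟨g, hg, rfl⟩ := mem_orb.1 (Finset.mem_coe.1 hb)
      refine Finset.mem_coe.2 (mem_orb.2 ⟨y * g * y⁻¹, mem_pst_conj hy hT hg, ?_⟩)
      simp
    have hyzi : y (z i) ∈ orb Y a := by
      rw [← orb_eq_of_mem hz1]
      exact mem_orb.2 ⟨y, hy, rfl⟩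
    have hsub : ∀ b ∈ orb Y a, ∀ T : Finset α, orb (pst Y T) b ⊆ orb Y a := by
      intro b hb T
      rw [← orb_eq_of_mem hb]
      exact orb_mono (pst_le Y T) b
    obtain ⟨x, hx, hxw⟩ := mem_orb.1 (big_unique (Z := pst Y (pre w i)) hc (hsub _ hyzi _)
      (hsub _ hw1 _) (by omega) hw2)
    refine ⟨x * y, Y.mul_mem hx.1 hy, fun j hj => ?_⟩
    rw [Perm.mul_apply]
    rcases Nat.lt_succ_iff_lt_or_eq.1 hj with h | h
    · rw [hyz j h]
      exact hx.2 _ (Finset.mem_image.2 ⟨j, Finset.mem_range.2 h, rfl⟩)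
    · rw [h]; exact hxw

theorem good_shift {Y : Subgroup (Perm α)} {Δ : Finset α} {c : ℕ} {z : ℕ → α} {L : ℕ}
    (hz : Good Y Δ c z (2 * L)) : Good Y Δ c (fun i => z (L + i)) L := by
  intro j hj
  obtain ⟨h1, h2⟩ := hz (L + j) (by omega)
  refine ⟨h1, lt_of_lt_of_le h2 (Nat.add_le_add_right (Finset.card_le_card ?_) _)⟩
  refine orb_mono (pst_anti Y ?_) _
  intro b hb
  obtain ⟨i, hi, rfl⟩ := Finset.mem_image.1 hb
  rw [Finset.mem_range] at hi
  exact Finset.mem_image.2 ⟨L + i, Finset.mem_range.2 (by omega), rfl⟩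

theorem numeric {D L : ℕ} (hL : 1 ≤ L) (hD : 8 * L ^ 4 ≤ D) (o : ℕ → ℕ)
    (ho : ∀ j < 2 * L, D < o j + 2 * L ^ 3) :
    D ^ (2 * L) < 2 * ∏ j ∈ Finset.range (2 * L), o j := by
  have hL4 : 1 ≤ L ^ 4 := Nat.one_le_pow _ _ hL
  have hL34 : L ^ 3 ≤ L ^ 4 := Nat.pow_le_pow_right hL (by norm_num)
  have hx : 2 * L ^ 3 ≤ D := by omega
  have hD0 : 0 < D := by omega
  have h1 : (D - 2 * L ^ 3) ^ (2 * L) < ∏ j ∈ Finset.range (2 * L), o j := by
    have : (D - 2 * L ^ 3) ^ (2 * L) = ∏ j ∈ Finset.range (2 * L), (D - 2 * L ^ 3) := by simp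
    rw [this]
    refine Finset.prod_lt_prod_of_nonempty ?_ ?_ ?_
    · intro i _; omega
    · intro i hi
      have := ho i (Finset.mem_range.1 hi)
      omega
    · exact ⟨0, Finset.mem_range.2 (by omega)⟩
  have h2 : D ^ (2 * L) ≤ 2 * (D - 2 * L ^ 3) ^ (2 * L) := by
    have hDr : (0 : ℝ) < D := by exact_mod_cast hD0
    have hb := one_add_mul_le_pow (a := -((2 * (L : ℝ) ^ 3) / D)) (by
      have : (2 * (L : ℝ) ^ 3) / D ≤ 1 := by
        rw [div_le_one hDr]; exact_mod_cast hx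
      linarith) (2 * L)
    have h3 : (1 / 2 : ℝ) ≤ 1 + ((2 * L : ℕ) : ℝ) * -((2 * (L : ℝ) ^ 3) / D) := by
      have : ((2 * L : ℕ) : ℝ) * ((2 * (L : ℝ) ^ 3) / D) ≤ 1 / 2 := by
        rw [mul_div_assoc', div_le_iff₀ hDr]
        have : (8 * (L : ℝ) ^ 4) ≤ D := by exact_mod_cast hD
        push_cast
        nlinarith
      linarith
    have h4 : (1 / 2 : ℝ) ≤ (1 + -((2 * (L : ℝ) ^ 3) / D)) ^ (2 * L) := h3.trans hb
    have h5 : (1 + -((2 * (L : ℝ) ^ 3) / D)) * D = ((D - 2 * L ^ 3 : ℕ) : ℝ) := by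
      rw [Nat.cast_sub hx]
      field_simp
      push_cast
      ring
    have h6 : (D : ℝ) ^ (2 * L) ≤ 2 * ((D - 2 * L ^ 3 : ℕ) : ℝ) ^ (2 * L) := by
      rw [← h5, mul_pow]
      have := mul_le_mul_of_nonneg_right h4 (pow_nonneg hDr.le (2 * L))
      nlinarith
    exact_mod_cast h6
  omega

end Key

open Key in
theorem key_step {α : Type*} [Fintype α] (Y : Subgroup (Perm α)) (L : ℕ) (hL : 1 ≤ L) (a : α)
    (hD : 8 * L ^ 4 ≤ (orb Y a).card)
    (hrob : ∀ T : Finset α, T ⊆ orb Y a → T.card ≤ 2 * L →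
      ∃ b ∈ orb Y a, (orb Y a).card < (orb (pst Y T) b).card + 2 * L ^ 3) :
    ∃ T : Finset α, T ⊆ orb Y a ∧ T.card = L ∧
      ∃ x ∈ Y, Y = pst Y T ⊔ Subgroup.closure {x} := by
  classical
  have hL4 : 1 ≤ L ^ 4 := Nat.one_le_pow _ _ hL
  have hL34 : L ^ 3 ≤ L ^ 4 := Nat.pow_le_pow_right hL (by norm_num)
  have hL3 : 1 ≤ L ^ 3 := Nat.one_le_pow _ _ hL
  obtain ⟨z, hz0⟩ := exists_good Y (orb Y a) (2 * L ^ 3) (2 * L) a (self_mem_orb Y a) hrob
  have hz : Good Y (orb Y a) (2 * L ^ 3) z (2 * L) := fun j hj => hz0 j (by omega)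
  have hu := good_shift hz
  obtain ⟨y, hy, hyz⟩ := exists_conj Y a (2 * L ^ 3) (by omega) z (fun i => z (L + i)) L
    (fun j hj => hz j (by omega)) hu
  -- the points are distinct
  have hnew : ∀ j < 2 * L, z j ∉ pre z j := by
    intro j hj hmem
    have h1 := (hz j hj).2
    have h2 : orb (pst Y (pre z j)) (z j) ⊆ {z j} := by
      intro b hb
      obtain ⟨g, hg, rfl⟩ := mem_orb.1 hb
      rw [hg.2 _ hmem]
      exact Finset.mem_singleton_self _
    have h3 := Finset.card_le_card h2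
    rw [Finset.card_singleton] at h3
    omega
  have hcard : ∀ i ≤ 2 * L, (pre z i).card = i := by
    intro i hi
    induction i with
    | zero => simp [pre]
    | succ i ih =>
      rw [pre_succ, Finset.card_union_of_disjoint, ih (by omega), Finset.card_singleton]
      rw [Finset.disjoint_singleton_right]
      exact hnew i (by omega)
  refine ⟨pre z L, ?_, hcard L (by omega), y, hy, ?_⟩
  · intro b hb
    obtain ⟨i, hi, rfl⟩ := Finset.mem_image.1 hb
    rw [Finset.mem_range] at hi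
    exact (hz i (by omega)).1
  set T := pre z L with hT
  set R := pst Y T ⊔ Subgroup.closure {y} with hR
  set U := (Finset.range L).image (fun i => z (L + i)) with hU
  have hyR : y ∈ R := (le_sup_right : Subgroup.closure {y} ≤ R) (Subgroup.subset_closure rfl)
  have hTR : pst Y T ≤ R := le_sup_left
  have hRY : R ≤ Y := sup_le (pst_le Y T) ((Subgroup.closure_le _).2 (by simpa using hy))
  have hUR : pst Y U ≤ R := by
    intro g hg
    have h1 : y⁻¹ * g * y⁻¹⁻¹ ∈ pst Y T := by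
      refine mem_pst_conj (Y.inv_mem hy) ?_ hg
      intro t ht
      obtain ⟨i, hi, rfl⟩ := Finset.mem_image.1 ht
      rw [Finset.mem_range] at hi
      rw [inv_inv, hyz i hi]
      exact Finset.mem_image.2 ⟨i, Finset.mem_range.2 hi, rfl⟩
    have h2 := R.mul_mem (R.mul_mem hyR (hTR h1)) (R.inv_mem hyR)
    have h3 : y * (y⁻¹ * g * y⁻¹⁻¹) * y⁻¹ = g := by group
    rwa [h3] at h2
  -- orders
  have hcardU : Nat.card (pst Y U) = Nat.card (pst Y T) := by
    refine Nat.card_congr ⟨fun g => ⟨y⁻¹ * g.1 * y⁻¹⁻¹, mem_pst_conj (Y.inv_mem hy) ?_ g.2⟩,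
      fun g => ⟨y * g.1 * y⁻¹, mem_pst_conj hy ?_ g.2⟩, ?_, ?_⟩
    · intro t ht
      obtain ⟨i, hi, rfl⟩ := Finset.mem_image.1 ht
      rw [Finset.mem_range] at hi
      rw [inv_inv, hyz i hi]
      exact Finset.mem_image.2 ⟨i, Finset.mem_range.2 hi, rfl⟩
    · intro t ht
      obtain ⟨i, hi, rfl⟩ := Finset.mem_image.1 ht
      rw [Finset.mem_range] at hi
      rw [← hyz i hi, inv_ap]
      exact Finset.mem_image.2 ⟨i, Finset.mem_range.2 hi, rfl⟩
    · intro g; apply Subtype.ext; simp; group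
    · intro g; apply Subtype.ext; simp; group
  have hTU : T ∪ U = pre z (2 * L) := by
    ext b
    simp only [hT, hU, pre, Finset.mem_union, Finset.mem_image, Finset.mem_range]
    constructor
    · rintro (⟨i, hi, rfl⟩ | ⟨i, hi, rfl⟩)
      · exact ⟨i, by omega, rfl⟩
      · exact ⟨L + i, by omega, rfl⟩
    · rintro ⟨i, hi, rfl⟩
      by_cases h : i < L
      · exact Or.inl ⟨i, h, rfl⟩
      · exact Or.inr ⟨i - L, by omega, by congr 1; omega⟩
  have hinf : pst Y T ⊓ pst Y U = pst Y (pre z (2 * L)) := by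
    rw [← hTU, ← pst_pst]
    ext g
    simp only [Subgroup.mem_inf, mem_pst]
    tauto
  have hrel : Nat.card (pst Y T) ^ 2 ≤ Nat.card R * Nat.card (pst Y (pre z (2 * L))) := by
    have e1 : (pst Y T).relIndex (pst Y U) ≤ (pst Y T).relIndex R :=
      Subgroup.relIndex_le_of_le_right hUR (rel_ne _ _)
    have e2 : Nat.card (pst Y T) * (pst Y T).relIndex R = Nat.card R :=
      card_mul_rel hTR
    have e3 : Nat.card (pst Y (pre z (2 * L))) * (pst Y T).relIndex (pst Y U) =
        Nat.card (pst Y U) := by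
      rw [← hinf, ← Subgroup.inf_relIndex_right]
      exact card_mul_rel inf_le_right
    rw [hcardU] at e3
    calc Nat.card (pst Y T) ^ 2 = Nat.card (pst Y T) * Nat.card (pst Y T) := by ring
      _ = Nat.card (pst Y T) *
          (Nat.card (pst Y (pre z (2 * L))) * (pst Y T).relIndex (pst Y U)) := by rw [e3]
      _ ≤ Nat.card (pst Y T) *
          (Nat.card (pst Y (pre z (2 * L))) * (pst Y T).relIndex R) := by gcongr
      _ = Nat.card R * Nat.card (pst Y (pre z (2 * L))) := by rw [← e2]; ring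
  set D := (orb Y a).card with hDdef
  have c1 := card_chain Y z L
  have c2 := card_chain Y z (2 * L)
  set P1 := ∏ j ∈ Finset.range L, (orb (pst Y (pre z j)) (z j)).card with hP1
  set P2 := ∏ j ∈ Finset.range (2 * L), (orb (pst Y (pre z j)) (z j)).card with hP2
  have hP1D : P1 ≤ D ^ L := by
    have : D ^ L = ∏ j ∈ Finset.range L, D := by simp
    rw [this]
    refine Finset.prod_le_prod' fun j hj => ?_
    rw [Finset.mem_range] at hj
    have h1 := (hz j (by omega)).1
    refine Finset.card_le_card ?_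
    rw [← orb_eq_of_mem h1]
    exact orb_mono (pst_le Y _) _
  have hP2D : D ^ (2 * L) < 2 * P2 := numeric hL hD _ fun j hj => (hz j hj).2
  have hY0 : 0 < Nat.card Y := Nat.card_pos
  have hfin : Nat.card Y < 2 * Nat.card R := by
    have i1 : Nat.card Y * P2 ≤ Nat.card R * P1 ^ 2 := by
      have j1 : Nat.card Y * (Nat.card Y * P2) ≤ Nat.card Y * (Nat.card R * P1 ^ 2) := by
        calc Nat.card Y * (Nat.card Y * P2)
            = (Nat.card (pst Y T)) ^ 2 * (P1 ^ 2 * P2) := by rw [c1]; ring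
          _ ≤ (Nat.card R * Nat.card (pst Y (pre z (2 * L)))) * (P1 ^ 2 * P2) := by gcongr
          _ = (Nat.card (pst Y (pre z (2 * L))) * P2) * (Nat.card R * P1 ^ 2) := by ring
          _ = Nat.card Y * (Nat.card R * P1 ^ 2) := by rw [← c2]
      exact Nat.le_of_mul_le_mul_left j1 hY0
    have i2 : Nat.card R * P1 ^ 2 ≤ Nat.card R * D ^ (2 * L) := by
      rw [mul_comm 2 L, pow_mul]
      gcongr
    have i3 : Nat.card Y * D ^ (2 * L) < 2 * Nat.card R * D ^ (2 * L) := by
      calc Nat.card Y * D ^ (2 * L) < Nat.card Y * (2 * P2) :=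
            Nat.mul_lt_mul_of_pos_left hP2D hY0
        _ = 2 * (Nat.card Y * P2) := by ring
        _ ≤ 2 * (Nat.card R * D ^ (2 * L)) := by
            exact Nat.mul_le_mul_left 2 (i1.trans i2)
        _ = 2 * Nat.card R * D ^ (2 * L) := by ring
    exact lt_of_mul_lt_mul_right i3 (Nat.zero_le _)
  -- conclusion
  have hdvd : Nat.card R * R.relIndex Y = Nat.card Y := card_mul_rel hRY
  have hR0 : 0 < Nat.card R := Nat.card_pos
  have hidx : R.relIndex Y < 2 := by
    rw [← hdvd] at hfin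
    by_contra hge
    push Not at hge
    have := Nat.mul_le_mul_left (Nat.card R) hge
    omega
  have hidx1 : R.relIndex Y = 1 := by
    have : R.relIndex Y ≠ 0 := (rel_ne _ _)
    omega
  exact le_antisymm (Subgroup.relIndex_eq_one.1 hidx1) hRY

end Pool.Agent.SDA
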