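import Pool.Agent.SDA.Process
import Pool.Agent.SDA.Count
import Pool.Agent.SDA.Comm

/-!
# Package 7: the limit of the relative commutativity degree
-/

set_option autoImplicit false
open scoped BigOperators Pointwise Nat
open Equiv

namespace Pool.Agent.SDA

namespace L7

/-- `H` commutes with `K` -/
def PC {G : Type*} [Group G] (H K : Subgroup G) : Prop :=
  (H : Set G) * (K : Set G) = (K : Set G) * (H : Set G)

/-- conjugate subgroup -/
def cj {G : Type*} [Group G] (g : G) (K : Subgroup G) : Subgroup G :=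
  K.map (MulAut.conj g).toMonoidHom

theorem mem_cj {G : Type*} [Group G] {g x : G} {K : Subgroup G} :
    x ∈ cj g K ↔ g⁻¹ * x * g ∈ K := by
  unfold cj
  rw [Subgroup.mem_map]
  constructor
  · rintro ⟨y, hy, rfl⟩
    have : g⁻¹ * ((MulAut.conj g).toMonoidHom y) * g = y := by
      change g⁻¹ * (g * y * g⁻¹) * g = y
      group
    rwa [this]
  · intro h
    refine ⟨_, h, ?_⟩
    change g * (g⁻¹ * x * g) * g⁻¹ = x
    group

theorem cj_cj_inv {G : Type*} [Group G] (g : G) (K : Subgroup G) : cj g (cj g⁻¹ K) = K := by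
  ext x
  rw [mem_cj, mem_cj]
  have : g⁻¹⁻¹ * (g⁻¹ * x * g) * g⁻¹ = x := by group
  rw [this]

theorem card_cj {G : Type*} [Group G] (g : G) (K : Subgroup G) :
    Nat.card (cj g K) = Nat.card K := by
  symm
  apply Nat.card_congr
  exact (K.equivMapOfInjective (MulAut.conj g).toMonoidHom (MulAut.conj g).injective).toEquiv

open Classical in
theorem nfix_cj {α : Type*} [Fintype α] (g : Perm α) (K : Subgroup (Perm α)) :
    nfix (cj g K) ≤ nfix K := by
  unfold nfix
  apply Finset.card_le_card_of_injOn (fun a => g⁻¹ a)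
  · intro a ha
    simp only [Finset.coe_filter, Finset.mem_univ, true_and, Set.mem_ofPred_eq] at ha ⊢
    intro k hk
    have h1 := ha (g * k * g⁻¹) (by
      rw [mem_cj]
      have : g⁻¹ * (g * k * g⁻¹) * g = k := by group
      rwa [this])
    have h2 : g (k (g⁻¹ a)) = a := h1
    rw [Perm.eq_inv_iff_eq]
    exact h2
  · intro a _ b _ h
    exact g⁻¹.injective h

end L7

open Classical in
/-- `c = #Cls`, `B` bounds the order of the good subgroups. -/
theorem sd_le (n k r t B : ℕ) (ht : 64 * t + 2 * k ≤ n)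
    (hbad : ∀ Y : Subgroup (Perm (Fin n)), B < Nat.card Y → Y ∈ Cls n k r) :
    sd (alternatingGroup (Fin n)) ≤
      (Nat.card (Cls n k r) : ℝ) / sA n + (Nat.card (Cls n k r) : ℝ) / s n +
        (B : ℝ) ^ 4 * 4 ^ n / t ! := by
  classical
  let G := Perm (Fin n)
  let _ : Fintype (Subgroup G) := Fintype.ofFinite _
  let A : Subgroup G := alternatingGroup (Fin n)
  let good : Subgroup G → Prop := fun H => Nat.card H ≤ B ∧ nfix H < k
  let U : Finset (Subgroup G) := Finset.univ
  let UA : Finset (Subgroup G) := U.filter (fun H => H ≤ A)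
  let bad : Finset (Subgroup G) := U.filter (fun H => ¬ good H)
  have hU : U.card = s n := by
    change Finset.univ.card = Nat.card (Subgroup (Perm (Fin n)))
    rw [Nat.card_eq_fintype_card, Finset.card_univ]
  have hUA : UA.card = sA n := by
    change _ = Nat.card {K : Subgroup (Perm (Fin n)) // K ≤ alternatingGroup (Fin n)}
    rw [Nat.card_eq_fintype_card, Fintype.card_subtype]
  have hb : bad.card ≤ Nat.card (Cls n k r) := by
    have h1 : (bad : Set (Subgroup G)) ⊆ Cls n k r := by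
      intro H hH
      have h2 : ¬ good H := (Finset.mem_filter.1 hH).2
      by_cases h3 : Nat.card H ≤ B
      · have h4 : k ≤ nfix H := by
          by_contra h5
          exact h2 ⟨h3, by omega⟩
        exact mem_Cls_of_fix n k r H h4
      · exact hbad H (lt_of_not_ge h3)
    have h2 := Set.ncard_le_ncard h1 (Set.toFinite _)
    rw [Set.ncard_coe_finset] at h2
    exact h2
  let W : Finset (Subgroup G × Subgroup G) := (UA ×ˢ U).filter (fun p => good p.1 ∧ good p.2)
  let GP : Finset (Subgroup G × Subgroup G) := W.filter (fun p => L7.PC p.1 p.2)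
  let T : Finset (Subgroup G × Subgroup G) :=
    Finset.univ.filter (fun p => p.1 ≤ A ∧ L7.PC p.1 p.2)
  have hT : T ⊆ ((bad ×ˢ U) ∪ (UA ×ˢ bad)) ∪ GP := by
    intro p hp
    obtain ⟨h1, h2⟩ := (Finset.mem_filter.1 hp).2
    by_cases g1 : good p.1
    · by_cases g2 : good p.2
      · apply Finset.mem_union_right
        refine Finset.mem_filter.2 ⟨Finset.mem_filter.2 ⟨?_, g1, g2⟩, h2⟩
        exact Finset.mem_product.2 ⟨Finset.mem_filter.2 ⟨Finset.mem_univ _, h1⟩, Finset.mem_univ _⟩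
      · apply Finset.mem_union_left
        apply Finset.mem_union_right
        exact Finset.mem_product.2 ⟨Finset.mem_filter.2 ⟨Finset.mem_univ _, h1⟩,
          Finset.mem_filter.2 ⟨Finset.mem_univ _, g2⟩⟩
    · apply Finset.mem_union_left
      apply Finset.mem_union_left
      exact Finset.mem_product.2 ⟨Finset.mem_filter.2 ⟨Finset.mem_univ _, g1⟩, Finset.mem_univ _⟩
  have hTc : T.card ≤ bad.card * U.card + UA.card * bad.card + GP.card := by
    refine le_trans (Finset.card_le_card hT) ?_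
    refine le_trans (Finset.card_union_le _ _) ?_
    refine Nat.add_le_add_right ?_ _
    refine le_trans (Finset.card_union_le _ _) ?_
    rw [Finset.card_product, Finset.card_product]
  -- the good commuting pairs
  have hGP : GP.card * t ! ≤ UA.card * U.card * (B ^ 4 * 4 ^ n) := by
    have h1 : ∀ g : G, GP.card ≤ (W.filter (fun p => L7.PC p.1 (L7.cj g p.2))).card := by
      intro g
      apply Finset.card_le_card_of_injOn (fun p => (p.1, L7.cj g⁻¹ p.2))
      · intro p hp
        obtain ⟨hW, hPC⟩ := Finset.mem_filter.1 (Finset.mem_coe.1 hp)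
        obtain ⟨hprod, g1, g2⟩ := Finset.mem_filter.1 hW
        obtain ⟨hA, _⟩ := Finset.mem_product.1 hprod
        apply Finset.mem_coe.2
        refine Finset.mem_filter.2 ⟨Finset.mem_filter.2 ⟨?_, g1, ?_, ?_⟩, ?_⟩
        · exact Finset.mem_product.2 ⟨hA, Finset.mem_univ _⟩
        · exact le_trans (L7.card_cj _ _).le g2.1
        · exact lt_of_le_of_lt (L7.nfix_cj _ _) g2.2
        · change L7.PC p.1 (L7.cj g (L7.cj g⁻¹ p.2))
          rw [L7.cj_cj_inv]
          exact hPC
      · intro p _ q _ h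
        have h2 := congrArg Prod.fst h
        have h3 := congrArg Prod.snd h
        simp only at h2 h3
        have h4 := congrArg (L7.cj g) h3
        rw [L7.cj_cj_inv, L7.cj_cj_inv] at h4
        exact Prod.ext h2 h4
    have h2 : Fintype.card G * GP.card ≤
        ∑ g : G, (W.filter (fun p => L7.PC p.1 (L7.cj g p.2))).card := by
      rw [← smul_eq_mul, ← Finset.card_univ, ← Finset.sum_const]
      exact Finset.sum_le_sum fun g _ => h1 g
    have h3 : ∑ g : G, (W.filter (fun p => L7.PC p.1 (L7.cj g p.2))).card =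
        ∑ p ∈ W, (Finset.univ.filter (fun g : G => L7.PC p.1 (L7.cj g p.2))).card := by
      simp only [Finset.card_filter]
      exact Finset.sum_comm
    have h4 : ∀ p ∈ W, (Finset.univ.filter (fun g : G => L7.PC p.1 (L7.cj g p.2))).card * t ! ≤
        B ^ 4 * 4 ^ n * n ! := by
      intro p hp
      obtain ⟨_, g1, g2⟩ := Finset.mem_filter.1 hp
      have h5 := count_comm p.1 p.2 t (by
        rw [Fintype.card_fin]
        have e1 := g1.2
        have e2 := g2.2
        omega)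
      rw [Nat.card_eq_fintype_card, Fintype.card_subtype, Fintype.card_fin] at h5
      refine le_trans h5 ?_
      have e3 : Nat.card p.1 ^ 2 * Nat.card p.2 ^ 2 ≤ B ^ 2 * B ^ 2 :=
        Nat.mul_le_mul (Nat.pow_le_pow_left g1.1 2) (Nat.pow_le_pow_left g2.1 2)
      have e4 : B ^ 2 * B ^ 2 = B ^ 4 := by ring
      rw [e4] at e3
      exact Nat.mul_le_mul_right _ (Nat.mul_le_mul_right _ e3)
    have h5 : (∑ p ∈ W, (Finset.univ.filter (fun g : G => L7.PC p.1 (L7.cj g p.2))).card) * t ! ≤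
        W.card * (B ^ 4 * 4 ^ n * n !) := by
      rw [Finset.sum_mul, ← smul_eq_mul (a := W.card), ← Finset.sum_const]
      exact Finset.sum_le_sum h4
    have h6 : W.card ≤ UA.card * U.card := by
      rw [← Finset.card_product]
      exact Finset.card_filter_le _ _
    have h7 : Fintype.card G = n ! := by
      change Fintype.card (Perm (Fin n)) = (n !)
      rw [Fintype.card_perm, Fintype.card_fin]
    rw [h3, h7] at h2
    have h8 : n ! * (GP.card * t !) ≤ n ! * (UA.card * U.card * (B ^ 4 * 4 ^ n)) := by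
      calc n ! * (GP.card * t !) = n ! * GP.card * t ! := by ring
        _ ≤ (∑ p ∈ W, (Finset.univ.filter (fun g : G => L7.PC p.1 (L7.cj g p.2))).card) * t ! :=
            Nat.mul_le_mul_right _ h2
        _ ≤ W.card * (B ^ 4 * 4 ^ n * n !) := h5
        _ ≤ UA.card * U.card * (B ^ 4 * 4 ^ n * n !) := Nat.mul_le_mul_right _ h6
        _ = n ! * (UA.card * U.card * (B ^ 4 * 4 ^ n)) := by ring
    exact Nat.le_of_mul_le_mul_left h8 (Nat.factorial_pos n)
  have hsd : sd (alternatingGroup (Fin n)) = (T.card : ℝ) / ((UA.card : ℝ) * (U.card : ℝ)) := by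
    unfold sd
    rw [hUA, hU]
    congr 2
    rw [Nat.card_eq_fintype_card, Fintype.card_subtype]
    rfl
  have hUpos : (0 : ℝ) < U.card := by
    have : 0 < U.card := Finset.card_pos.2 ⟨⊥, Finset.mem_univ _⟩
    exact_mod_cast this
  have hUApos : (0 : ℝ) < UA.card := by
    have : 0 < UA.card := Finset.card_pos.2 ⟨⊥, Finset.mem_filter.2 ⟨Finset.mem_univ _, bot_le⟩⟩
    exact_mod_cast this
  have htpos : (0 : ℝ) < (t ! : ℝ) := by exact_mod_cast Nat.factorial_pos t
  rw [hsd, ← hUA, ← hU, div_add_div _ _ hUApos.ne' hUpos.ne', div_add_div _ _ (by positivity) htpos.ne',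
    div_le_div_iff₀ (by positivity) (by positivity)]
  have r1 : (T.card : ℝ) ≤ bad.card * U.card + UA.card * bad.card + GP.card := by
    exact_mod_cast hTc
  have r2 : (GP.card : ℝ) * t ! ≤ UA.card * U.card * ((B : ℝ) ^ 4 * 4 ^ n) := by
    exact_mod_cast hGP
  have r3 : (bad.card : ℝ) ≤ Nat.card (Cls n k r) := by exact_mod_cast hb
  set c : ℝ := (Nat.card (Cls n k r) : ℝ)
  have r4 : (T.card : ℝ) * t ! ≤ (c * U.card + UA.card * c) * t ! +
      UA.card * U.card * ((B : ℝ) ^ 4 * 4 ^ n) := by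
    calc (T.card : ℝ) * t ! ≤ (bad.card * U.card + UA.card * bad.card + GP.card) * t ! :=
          mul_le_mul_of_nonneg_right r1 htpos.le
      _ = (bad.card * U.card + UA.card * bad.card) * t ! + GP.card * t ! := by ring
      _ ≤ (c * U.card + UA.card * c) * t ! + UA.card * U.card * ((B : ℝ) ^ 4 * 4 ^ n) := by
          refine add_le_add (mul_le_mul_of_nonneg_right (add_le_add ?_ ?_) htpos.le) r2
          · exact mul_le_mul_of_nonneg_right r3 hUpos.le
          · exact mul_le_mul_of_nonneg_left r3 hUApos.le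
  calc (T.card : ℝ) * ((UA.card : ℝ) * U.card * t !) = (UA.card * U.card) * (T.card * t !) := by ring
    _ ≤ (UA.card * U.card) * ((c * U.card + UA.card * c) * t ! +
      UA.card * U.card * ((B : ℝ) ^ 4 * 4 ^ n)) :=
        mul_le_mul_of_nonneg_left r4 (by positivity)
    _ = _ := by ring

namespace L7

/-- number of binary digits -/
def dl (n : ℕ) : ℕ := Nat.log 2 n + 1

theorem le_two_pow_dl (n : ℕ) : n ≤ 2 ^ dl n :=
  (Nat.lt_pow_succ_log_self (by norm_num) n).le

theorem two_pow_le (n : ℕ) (hn : n ≠ 0) : 2 ^ (dl n - 1) ≤ n := by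
  unfold dl
  rw [Nat.add_sub_cancel]
  exact Nat.pow_log_le_self 2 hn

/-- the parameter `L` -/
def LL (n : ℕ) : ℕ := 2 ^ 32 * dl n ^ 2

theorem dl_pos (n : ℕ) : 1 ≤ dl n := Nat.le_add_left 1 _

theorem dl_le_LL (n : ℕ) : dl n ≤ LL n := by
  unfold LL
  have h := dl_pos n
  nlinarith

theorem LL_pos (n : ℕ) : 1 ≤ LL n := le_trans (dl_pos n) (dl_le_LL n)

/-- the parameter `r` -/
def rr (n : ℕ) : ℕ := dl n * n / LL n

/-- the bound for the order of the good subgroups -/
def BB (n : ℕ) : ℕ := n ^ (n / 4096) * (8 * LL n ^ 4) ^ n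

theorem big (n : ℕ) (hn : 1 ≤ n) (Y : Subgroup (Perm (Fin n))) (h : BB n < Nat.card Y) :
    Y ∈ Cls n (n / 4096) (rr n) := by
  apply mem_Cls_of_big n (LL n) (dl n) (n / 4096) (rr n) hn (LL_pos n) _ (le_two_pow_dl n) _ Y h
  · exact le_trans (le_two_pow_dl n) (Nat.pow_le_pow_right (by norm_num) (dl_le_LL n))
  · unfold rr
    have h1 := Nat.div_add_mod (dl n * n) (LL n)
    have h2 := Nat.mod_lt (dl n * n) (LL_pos n)
    omega

theorem exp_growth : ∀ l : ℕ, 50 ≤ l → 2 ^ 17 * l + 1 ≤ 2 ^ (l - 15) := by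
  intro l hl
  induction l, hl using Nat.le_induction with
  | base => norm_num
  | succ l hl ih =>
    have h1 : l + 1 - 15 = (l - 15) + 1 := by omega
    rw [h1, pow_succ]
    omega

/-- for large `n` the number of digits is small compared with `n` -/
theorem dl_small (n : ℕ) (hn : 2 ^ 60 ≤ n) : 2 ^ 17 * dl n ≤ n / 16384 := by
  have h0 : n ≠ 0 := by
    have : 0 < 2 ^ 60 := by norm_num
    omega
  have h1 : 60 ≤ Nat.log 2 n := Nat.le_log_of_pow_le (by norm_num) hn
  have h2 : 50 ≤ dl n := by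
    unfold dl
    omega
  have h3 := exp_growth (dl n) h2
  have h4 := two_pow_le n h0
  have h5 : 2 ^ (dl n - 1) = 2 ^ (dl n - 15) * 16384 := by
    have h6 : dl n - 1 = (dl n - 15) + 14 := by omega
    rw [h6, pow_add]
    norm_num
  rw [h5] at h4
  have h7 : 2 ^ (dl n - 15) ≤ n / 16384 := (Nat.le_div_iff_mul_le (by norm_num)).2 h4
  omega

theorem fact_le (n : ℕ) : n ! ≤ 2 ^ (dl n * n) := by
  calc n ! ≤ n ^ n := Nat.factorial_le_pow n
    _ ≤ (2 ^ dl n) ^ n := Nat.pow_le_pow_left (le_two_pow_dl n) n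
    _ = 2 ^ (dl n * n) := by rw [← pow_mul]

theorem lnr_le (n : ℕ) : 2 ^ 32 * (dl n * n * rr n) ≤ n ^ 2 := by
  have h1 : rr n * LL n ≤ dl n * n := Nat.div_mul_le_self _ _
  unfold LL at h1
  have h2 : dl n * (rr n * (2 ^ 32 * dl n)) ≤ dl n * n := by
    calc dl n * (rr n * (2 ^ 32 * dl n)) = rr n * (2 ^ 32 * dl n ^ 2) := by ring
      _ ≤ dl n * n := h1
  have h3 : rr n * (2 ^ 32 * dl n) ≤ n := Nat.le_of_mul_le_mul_left h2 (dl_pos n)
  calc 2 ^ 32 * (dl n * n * rr n) = n * (rr n * (2 ^ 32 * dl n)) := by ring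
    _ ≤ n * n := Nat.mul_le_mul_left _ h3
    _ = n ^ 2 := by ring

theorem expo (n : ℕ) (hn : 2 ^ 60 ≤ n) :
    2 * n + dl n * n * rr n + (dl n * n + 1) ≤ (n / 4096 / 4) ^ 2 := by
  have h1 := dl_small n hn
  have h2 := lnr_le n
  rw [Nat.div_div_eq_div_mul]
  have e : 4096 * 4 = 16384 := by norm_num
  rw [e]
  obtain ⟨m, hm⟩ : ∃ m, n / 16384 = m := ⟨_, rfl⟩
  rw [hm] at h1 ⊢
  have h3 : n ≤ 16384 * m + 16383 := by omega
  have h4 : 2 ^ 45 ≤ m := by
    rw [← hm, Nat.le_div_iff_mul_le (by norm_num)]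
    refine le_trans ?_ hn
    norm_num
  have h5 : n ≤ 2 ^ 15 * m := by
    have : (16383 : ℕ) ≤ 16384 * m := by omega
    omega
  obtain ⟨d, hd⟩ : ∃ d, dl n = d := ⟨_, rfl⟩
  obtain ⟨q, hq⟩ : ∃ q, dl n * n * rr n = q := ⟨_, rfl⟩
  rw [hq] at h2 ⊢
  rw [hd] at h1 ⊢
  have h6 : n ^ 2 ≤ 2 ^ 30 * m ^ 2 := by
    calc n ^ 2 ≤ (2 ^ 15 * m) ^ 2 := Nat.pow_le_pow_left h5 2
      _ = 2 ^ 30 * m ^ 2 := by ring
  have h7 : 4 * q ≤ m ^ 2 := by omega
  have h8 : 4 * (d * n) ≤ m ^ 2 := by
    calc 4 * (d * n) ≤ 4 * (d * (2 ^ 15 * m)) :=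
          Nat.mul_le_mul_left _ (Nat.mul_le_mul_left _ h5)
      _ = (2 ^ 17 * d) * m := by ring
      _ ≤ m * m := Nat.mul_le_mul_right _ h1
      _ = m ^ 2 := by ring
  have h9 : 4 * (2 * n + 1) ≤ m ^ 2 := by
    have h10 : 4 * (2 * n + 1) ≤ 2 ^ 19 * m := by omega
    have h11 : 2 ^ 19 * m ≤ m * m := Nat.mul_le_mul_right _ (le_trans (by norm_num) h4)
    have h12 : m * m = m ^ 2 := by ring
    omega
  omega

theorem cls_bound (n : ℕ) (hn : 2 ^ 60 ≤ n) :
    Nat.card (Cls n (n / 4096) (rr n)) * 2 ^ n * (1 + n !) ≤ s n := by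
  have h1 := card_Cls_mul_le n (n / 4096) (rr n) (Nat.div_le_self _ _)
  obtain ⟨c, hc⟩ : ∃ c, Nat.card (Cls n (n / 4096) (rr n)) = c := ⟨_, rfl⟩
  rw [hc] at h1 ⊢
  have h2 := expo n hn
  have h3 : 2 ^ n * (1 + n !) * (2 ^ n * n ! ^ rr n) ≤ 2 ^ ((n / 4096 / 4) ^ 2) := by
    have h4 : 1 + n ! ≤ 2 ^ (dl n * n + 1) := by
      have h5 := fact_le n
      have h6 : 1 ≤ 2 ^ (dl n * n) := Nat.one_le_two_pow
      rw [pow_succ]
      omega
    have h5 : n ! ^ rr n ≤ 2 ^ (dl n * n * rr n) := by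
      rw [pow_mul]
      exact Nat.pow_le_pow_left (fact_le n) _
    calc 2 ^ n * (1 + n !) * (2 ^ n * n ! ^ rr n)
        ≤ 2 ^ n * 2 ^ (dl n * n + 1) * (2 ^ n * 2 ^ (dl n * n * rr n)) :=
          Nat.mul_le_mul (Nat.mul_le_mul_left _ h4) (Nat.mul_le_mul_left _ h5)
      _ = 2 ^ (2 * n + dl n * n * rr n + (dl n * n + 1)) := by
          rw [← pow_add, ← pow_add, ← pow_add]
          congr 1
          ring
      _ ≤ _ := Nat.pow_le_pow_right (by norm_num) h2
  have hpos : 0 < 2 ^ n * n ! ^ rr n :=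
    Nat.mul_pos (Nat.two_pow_pos n) (Nat.pow_pos (Nat.factorial_pos n))
  apply Nat.le_of_mul_le_mul_left _ hpos
  calc 2 ^ n * n ! ^ rr n * (c * 2 ^ n * (1 + n !))
      = c * (2 ^ n * (1 + n !) * (2 ^ n * n ! ^ rr n)) := by ring
    _ ≤ c * 2 ^ ((n / 4096 / 4) ^ 2) := Nat.mul_le_mul_left _ h3
    _ ≤ 2 ^ n * n ! ^ rr n * s n := h1

theorem s_pos (n : ℕ) : 0 < s n := Nat.card_pos

theorem sA_pos (n : ℕ) : 0 < sA n := by
  unfold sA
  have : Nonempty {K : Subgroup (Perm (Fin n)) // K ≤ alternatingGroup (Fin n)} := ⟨⟨⊥, bot_le⟩⟩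
  exact Nat.card_pos

theorem term1 (n : ℕ) (hn : 2 ^ 60 ≤ n) :
    (Nat.card (Cls n (n / 4096) (rr n)) : ℝ) / s n ≤ (1 / 2) ^ n := by
  have h1 := cls_bound n hn
  have hs : (0 : ℝ) < s n := by exact_mod_cast s_pos n
  rw [div_le_iff₀ hs, one_div, inv_pow, ← div_eq_inv_mul, le_div_iff₀ (by positivity)]
  have h2 : Nat.card (Cls n (n / 4096) (rr n)) * 2 ^ n ≤ s n := by
    refine le_trans ?_ h1
    exact Nat.le_mul_of_pos_right _ (by positivity)
  exact_mod_cast h2

theorem term2 (n : ℕ) (hn : 2 ^ 60 ≤ n) :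
    (Nat.card (Cls n (n / 4096) (rr n)) : ℝ) / sA n ≤ (1 / 2) ^ n := by
  have h1 := cls_bound n hn
  have hs : (0 : ℝ) < sA n := by exact_mod_cast sA_pos n
  rw [div_le_iff₀ hs, one_div, inv_pow, ← div_eq_inv_mul, le_div_iff₀ (by positivity)]
  have h2 : Nat.card (Cls n (n / 4096) (rr n)) * 2 ^ n ≤ sA n := by
    have h3 := le_trans h1 (s_le_sA n)
    rw [mul_comm] at h3
    exact Nat.le_of_mul_le_mul_left h3 (by positivity)
  exact_mod_cast h2

theorem log_fact (t : ℕ) : (t : ℝ) * Real.log t - t ≤ Real.log (t ! : ℝ) := by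
  rcases Nat.eq_zero_or_pos t with rfl | ht
  · simp
  · have ht' : (0 : ℝ) < t := by exact_mod_cast ht
    have hf : (0 : ℝ) < (t ! : ℝ) := by exact_mod_cast Nat.factorial_pos t
    have h1 := Real.pow_div_factorial_le_exp (t : ℝ) ht'.le t
    have h2 := Real.log_le_log (by positivity) h1
    rw [Real.log_exp, Real.log_div (by positivity) hf.ne', Real.log_pow] at h2
    linarith

theorem log_dl (n : ℕ) (hn : 3 ≤ n) : (dl n : ℝ) ≤ 3 * Real.log n := by
  have hn' : (3 : ℝ) ≤ n := by exact_mod_cast hn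
  have h1 : (2 : ℝ) ^ (Nat.log 2 n) ≤ n := by
    exact_mod_cast Nat.pow_log_le_self 2 (by omega : n ≠ 0)
  have h2 := Real.log_le_log (by positivity) h1
  rw [Real.log_pow] at h2
  have h3 : (1 / 2 : ℝ) < Real.log 2 := by
    have := Real.log_two_gt_d9
    linarith
  have h4 : (1 : ℝ) ≤ Real.log n := by
    rw [Real.le_log_iff_exp_le (by linarith)]
    have := Real.exp_one_lt_d9
    linarith
  have h5 : ((Nat.log 2 n : ℕ) : ℝ) * (1 / 2) ≤ Real.log n :=
    le_trans (mul_le_mul_of_nonneg_left h3.le (Nat.cast_nonneg _)) h2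
  unfold dl
  push_cast
  linarith

/-- the constant of the estimate -/
noncomputable def KK : ℝ :=
  4 * Real.log 8 + 16 * (Real.log (2 ^ 32) + 2 * Real.log 3) + Real.log 4 +
    (Real.log 256 + 1) / 256

theorem expo2 (n : ℕ) (hn : 1024 ≤ n) :
    4 * (((n / 4096 : ℕ) : ℝ) * Real.log n + n * Real.log (8 * (LL n : ℝ) ^ 4)) +
      n * Real.log 4 - ((n / 128 : ℕ) : ℝ) * Real.log ((n / 128 : ℕ) : ℝ) +
        ((n / 128 : ℕ) : ℝ) ≤
      n * (-(3 / 1024) * Real.log n + 32 * Real.log (Real.log n) + KK) := by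
  have hn' : (1024 : ℝ) ≤ n := by exact_mod_cast hn
  have hnpos : (0 : ℝ) < n := by linarith
  have hlog1 : (1 : ℝ) ≤ Real.log n := by
    rw [Real.le_log_iff_exp_le (by linarith)]
    have := Real.exp_one_lt_d9
    linarith
  have hk : ((n / 4096 : ℕ) : ℝ) ≤ n / 4096 := by
    have := @Nat.cast_div_le ℝ _ _ _ n 4096
    simpa using this
  have ht1 : (n : ℝ) / 256 ≤ ((n / 128 : ℕ) : ℝ) := by
    rw [div_le_iff₀ (by norm_num)]
    have : n ≤ (n / 128) * 256 := by omega
    exact_mod_cast this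
  have hlt : Real.log n - Real.log 256 ≤ Real.log ((n / 128 : ℕ) : ℝ) := by
    rw [← Real.log_div hnpos.ne' (by norm_num)]
    exact Real.log_le_log (by positivity) ht1
  have hlt1 : 0 ≤ Real.log n - Real.log 256 - 1 := by
    have h1 : Real.log 256 + 1 = Real.log (256 * Real.exp 1) := by
      rw [Real.log_mul (by norm_num) (Real.exp_pos 1).ne', Real.log_exp]
    have h2 : Real.log (256 * Real.exp 1) ≤ Real.log n := by
      apply Real.log_le_log (by positivity)
      have := Real.exp_one_lt_d9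
      linarith
    linarith
  have hmain : ((n / 128 : ℕ) : ℝ) * Real.log ((n / 128 : ℕ) : ℝ) - ((n / 128 : ℕ) : ℝ) ≥
      n / 256 * (Real.log n - Real.log 256 - 1) := by
    have h1 : ((n / 128 : ℕ) : ℝ) * (Real.log ((n / 128 : ℕ) : ℝ) - 1) ≥
        n / 256 * (Real.log n - Real.log 256 - 1) :=
      mul_le_mul ht1 (by linarith) hlt1 (Nat.cast_nonneg _)
    linarith
  have hLL : Real.log (8 * (LL n : ℝ) ^ 4) ≤
      Real.log 8 + 4 * (Real.log (2 ^ 32) + 2 * (Real.log 3 + Real.log (Real.log n))) := by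
    have hd := log_dl n (by omega)
    have hdpos : (0 : ℝ) < dl n := by exact_mod_cast dl_pos n
    have hLLc : (LL n : ℝ) = 2 ^ 32 * (dl n : ℝ) ^ 2 := by
      unfold LL
      push_cast
      ring
    have hLLpos : (0 : ℝ) < (LL n : ℝ) := by exact_mod_cast LL_pos n
    rw [Real.log_mul (by norm_num) (by positivity), Real.log_pow, hLLc,
      Real.log_mul (by norm_num) (by positivity), Real.log_pow (n := 2)]
    have h2 : Real.log (dl n) ≤ Real.log 3 + Real.log (Real.log n) := by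
      rw [← Real.log_mul (by norm_num) (by linarith)]
      exact Real.log_le_log hdpos hd
    push_cast
    linarith
  have h1 : ((n / 4096 : ℕ) : ℝ) * Real.log n ≤ n / 4096 * Real.log n :=
    mul_le_mul_of_nonneg_right hk (by linarith)
  have h2 : (n : ℝ) * Real.log (8 * (LL n : ℝ) ^ 4) ≤ n * (Real.log 8 + 4 * (Real.log (2 ^ 32) +
      2 * (Real.log 3 + Real.log (Real.log n)))) := mul_le_mul_of_nonneg_left hLL hnpos.le
  unfold KK
  have e : (n : ℝ) * (-(3 / 1024) * Real.log n + 32 * Real.log (Real.log n) +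
      (4 * Real.log 8 + 16 * (Real.log (2 ^ 32) + 2 * Real.log 3) + Real.log 4 +
        (Real.log 256 + 1) / 256)) =
      4 * (n / 4096 * Real.log n + n * (Real.log 8 + 4 * (Real.log (2 ^ 32) +
      2 * (Real.log 3 + Real.log (Real.log n))))) + n * Real.log 4 -
        n / 256 * (Real.log n - Real.log 256 - 1) := by ring
  rw [e]
  have key : ∀ a b c d e f g h : ℝ, a ≤ b → c ≤ d → e - f ≥ g →
      4 * (a + c) + h - e + f ≤ 4 * (b + d) + h - g := by
    intro a b c d e f g h h1 h2 h3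
    linarith
  exact key _ _ _ _ _ _ _ _ h1 h2 hmain

theorem eventually_neg : ∀ᶠ n : ℕ in Filter.atTop,
    -(3 / 1024) * Real.log n + 32 * Real.log (Real.log n) + KK ≤ -1 := by
  have hlog : Filter.Tendsto (fun n : ℕ => Real.log (n : ℝ)) Filter.atTop Filter.atTop :=
    Real.tendsto_log_atTop.comp tendsto_natCast_atTop_atTop
  have h1 : ∀ᶠ y : ℝ in Filter.atTop, Real.log y ≤ (1 / 32768) * y := by
    have h2 := Real.isLittleO_log_id_atTop.bound (by norm_num : (0 : ℝ) < 1 / 32768)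
    filter_upwards [h2, Filter.eventually_ge_atTop (1 : ℝ)] with y hy hy1
    have h3 := le_abs_self (Real.log y)
    simp only [Real.norm_eq_abs, id] at hy
    rw [abs_of_nonneg (by linarith : (0 : ℝ) ≤ y)] at hy
    linarith
  filter_upwards [hlog.eventually h1, hlog.eventually_ge_atTop (1024 * (KK + 1)),
    hlog.eventually_ge_atTop 0] with n h2 h3 h4
  linarith

theorem term3 : ∀ᶠ n : ℕ in Filter.atTop,
    (BB n : ℝ) ^ 4 * 4 ^ n / ((n / 128)! : ℕ) ≤ Real.exp (-n) := by
  filter_upwards [eventually_neg, Filter.eventually_ge_atTop 1024] with n h1 h2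
  have h3 := expo2 n h2
  have hnpos : (0 : ℝ) < n := by
    have : 0 < n := by omega
    exact_mod_cast this
  have hLLpos : (0 : ℝ) < (LL n : ℝ) := by exact_mod_cast LL_pos n
  have hBpos : (0 : ℝ) < (BB n : ℝ) := by
    unfold BB
    push_cast
    positivity
  have hfpos : (0 : ℝ) < (((n / 128)! : ℕ) : ℝ) := by exact_mod_cast Nat.factorial_pos _
  rw [← Real.log_le_iff_le_exp (by positivity), Real.log_div (by positivity) hfpos.ne',
    Real.log_mul (by positivity) (by positivity), Real.log_pow, Real.log_pow]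
  have h4 : Real.log (BB n : ℝ) = ((n / 4096 : ℕ) : ℝ) * Real.log n +
      n * Real.log (8 * (LL n : ℝ) ^ 4) := by
    unfold BB
    push_cast
    rw [Real.log_mul (by positivity) (by positivity), Real.log_pow, Real.log_pow]
  rw [h4]
  have h5 := log_fact (n / 128)
  have h6 : (n : ℝ) * (-(3 / 1024) * Real.log n + 32 * Real.log (Real.log n) + KK) ≤ n * (-1) :=
    mul_le_mul_of_nonneg_left h1 hnpos.le
  push_cast
  linarith

end L7

theorem tendsto_sd :
    Filter.Tendsto (fun n : ℕ => sd (alternatingGroup (Fin n))) Filter.atTop (nhds 0) := by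
  have hlim : Filter.Tendsto (fun n : ℕ => ((1 : ℝ) / 2) ^ n + (1 / 2) ^ n + Real.exp (-(n : ℝ)))
      Filter.atTop (nhds 0) := by
    have h1 : Filter.Tendsto (fun n : ℕ => ((1 : ℝ) / 2) ^ n) Filter.atTop (nhds 0) :=
      tendsto_pow_atTop_nhds_zero_of_lt_one (by norm_num) (by norm_num)
    have h2 : Filter.Tendsto (fun n : ℕ => Real.exp (-(n : ℝ))) Filter.atTop (nhds 0) :=
      Real.tendsto_exp_neg_atTop_nhds_zero.comp tendsto_natCast_atTop_atTop
    simpa using (h1.add h1).add h2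
  refine squeeze_zero' (Filter.Eventually.of_forall fun n => ?_) ?_ hlim
  · unfold sd
    positivity
  · filter_upwards [L7.term3, Filter.eventually_ge_atTop (2 ^ 60)] with n h3 hn
    have h0 : 1 ≤ n := le_trans (by norm_num) hn
    have h := sd_le n (n / 4096) (L7.rr n) (n / 128) (L7.BB n) (by omega) (L7.big n h0)
    have h1 := L7.term1 n hn
    have h2 := L7.term2 n hn
    linarith

end Pool.Agent.SDA
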