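import Pool.Agent.SDA.Basic
import Pool.Agent.SDA.Key

/-!
# The process (package 3)
-/

set_option autoImplicit false
open scoped BigOperators Pointwise Nat
open Equiv

namespace Pool.Agent.SDA

variable {α : Type*} [Fintype α]

theorem proc_orb_pos (Y : Subgroup (Perm α)) (a : α) : 0 < (orb Y a).card :=
  Finset.card_pos.2 ⟨a, self_mem_orb Y a⟩

theorem proc_pot_pos (Y : Subgroup (Perm α)) : 0 < pot Y :=
  Finset.prod_pos fun a _ => proc_orb_pos Y a

theorem proc_orb_le (Y : Subgroup (Perm α)) (a : α) : (orb Y a).card ≤ Fintype.card α :=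
  Finset.card_le_univ _

/-- `(D - m)^D 2^m <= D^D` -/
theorem proc_numeric {D m : ℕ} (h : m ≤ D) (hD : 0 < D) : (D - m) ^ D * 2 ^ m ≤ D ^ D := by
  have hD' : (0 : ℝ) < D := by exact_mod_cast hD
  have h1 : (1 - (m : ℝ) / D) ≤ Real.exp (-((m : ℝ) / D)) := by
    have := Real.add_one_le_exp (-((m : ℝ) / D))
    linarith
  have h0 : 0 ≤ 1 - (m : ℝ) / D := by
    rw [sub_nonneg, div_le_one hD']
    exact_mod_cast h
  have h2 : (1 - (m : ℝ) / D) ^ D ≤ Real.exp (-(m : ℝ)) := by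
    calc (1 - (m : ℝ) / D) ^ D ≤ (Real.exp (-((m : ℝ) / D))) ^ D := pow_le_pow_left₀ h0 h1 D
      _ = Real.exp (-(m : ℝ)) := by
          rw [← Real.exp_nat_mul]
          congr 1
          field_simp
  have h3 : Real.exp (-(m : ℝ)) * 2 ^ m ≤ 1 := by
    have h4 : (2 : ℝ) ^ m ≤ Real.exp m := by
      calc (2 : ℝ) ^ m ≤ (Real.exp 1) ^ m := by
            apply pow_le_pow_left₀ (by norm_num)
            have := Real.exp_one_gt_d9
            linarith
        _ = Real.exp m := by rw [← Real.exp_nat_mul, mul_one]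
    calc Real.exp (-(m : ℝ)) * 2 ^ m ≤ Real.exp (-(m : ℝ)) * Real.exp m :=
          mul_le_mul_of_nonneg_left h4 (Real.exp_pos _).le
      _ = 1 := by rw [← Real.exp_add]; simp
  have h5 : (1 - (m : ℝ) / D) ^ D * 2 ^ m ≤ 1 :=
    (mul_le_mul_of_nonneg_right h2 (by positivity)).trans h3
  have h6 : (((D - m : ℕ) : ℝ)) ^ D * 2 ^ m ≤ (D : ℝ) ^ D := by
    rw [Nat.cast_sub h]
    have e : ((D : ℝ) - m) = (1 - (m : ℝ) / D) * D := by field_simp
    rw [e, mul_pow]
    calc (1 - (m : ℝ) / D) ^ D * (D : ℝ) ^ D * 2 ^ m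
        = ((1 - (m : ℝ) / D) ^ D * 2 ^ m) * (D : ℝ) ^ D := by ring
      _ ≤ 1 * (D : ℝ) ^ D := mul_le_mul_of_nonneg_right h5 (by positivity)
      _ = (D : ℝ) ^ D := one_mul _
  exact_mod_cast h6

theorem proc_step (L : ℕ) (hL : 1 ≤ L) (hn : Fintype.card α ≤ 2 ^ L)
    (Y : Subgroup (Perm α)) (a : α) (ha : 8 * L ^ 4 ≤ (orb Y a).card) :
    ∃ (T : Finset α) (X : Finset (Perm α)),
      Y = pst Y T ⊔ Subgroup.closure (X : Set (Perm α)) ∧
      2 ^ (L * X.card) * pot (pst Y T) ≤ pot Y ∧ pot (pst Y T) < pot Y := by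
  classical
  have hL4 : L ^ 3 ≤ L ^ 4 := Nat.pow_le_pow_right hL (by norm_num)
  have hL41 : 1 ≤ L ^ 4 := Nat.one_le_pow _ _ hL
  have hL31 : 1 ≤ L ^ 3 := Nat.one_le_pow _ _ hL
  by_cases hrob : ∀ T : Finset α, T ⊆ orb Y a → T.card ≤ 2 * L →
      ∃ b ∈ orb Y a, (orb Y a).card < (orb (pst Y T) b).card + 2 * L ^ 3
  · obtain ⟨T, hT, hTL, x, hx, hYx⟩ := key_step Y L hL a ha hrob
    have h1 : 2 ^ L * pot (pst Y T) ≤ pot Y := by
      have e1 : pot (pst Y T) = (∏ t ∈ T, (orb (pst Y T) t).card) *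
          ∏ t ∈ Tᶜ, (orb (pst Y T) t).card := (Finset.prod_mul_prod_compl T _).symm
      have e2 : pot Y = (∏ t ∈ T, (orb Y t).card) * ∏ t ∈ Tᶜ, (orb Y t).card :=
        (Finset.prod_mul_prod_compl T _).symm
      have h3 : ∏ t ∈ T, (orb (pst Y T) t).card = 1 := by
        apply Finset.prod_eq_one
        intro t ht
        rw [Finset.card_eq_one]
        refine ⟨t, ?_⟩
        ext b
        rw [mem_orb, Finset.mem_singleton]
        constructor
        · rintro ⟨g, hg, rfl⟩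
          exact hg.2 t ht
        · rintro rfl
          exact ⟨1, Subgroup.one_mem _, rfl⟩
      have h4 : 2 ^ L ≤ ∏ t ∈ T, (orb Y t).card := by
        rw [← hTL, ← Finset.prod_const]
        apply Finset.prod_le_prod'
        intro t ht
        rw [orb_eq_of_mem (hT ht)]
        omega
      have h5 : ∏ t ∈ Tᶜ, (orb (pst Y T) t).card ≤ ∏ t ∈ Tᶜ, (orb Y t).card :=
        Finset.prod_le_prod' fun t _ => Finset.card_le_card (orb_mono (pst_le Y T) t)
      rw [e1, e2, h3, one_mul]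
      exact Nat.mul_le_mul h4 h5
    refine ⟨T, {x}, by simpa using hYx, by simpa using h1, ?_⟩
    have h2 : 2 ≤ 2 ^ L := by
      calc 2 = 2 ^ 1 := rfl
        _ ≤ 2 ^ L := Nat.pow_le_pow_right (by norm_num) hL
    have h3 := proc_pot_pos (pst Y T)
    nlinarith
  · push Not at hrob
    obtain ⟨T, hT, hTL, hb⟩ := hrob
    have h1 : 2 ^ (2 * L ^ 3) * pot (pst Y T) ≤ pot Y := by
      have e1 : pot (pst Y T) = (∏ t ∈ orb Y a, (orb (pst Y T) t).card) *
          ∏ t ∈ (orb Y a)ᶜ, (orb (pst Y T) t).card := (Finset.prod_mul_prod_compl _ _).symm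
      have e2 : pot Y = (∏ t ∈ orb Y a, (orb Y t).card) * ∏ t ∈ (orb Y a)ᶜ, (orb Y t).card :=
        (Finset.prod_mul_prod_compl _ _).symm
      have h3 : ∏ t ∈ orb Y a, (orb (pst Y T) t).card ≤
          ((orb Y a).card - 2 * L ^ 3) ^ (orb Y a).card := by
        apply Finset.prod_le_pow_card
        intro t ht
        have := hb t ht
        omega
      have h4 : ∏ t ∈ orb Y a, (orb Y t).card = (orb Y a).card ^ (orb Y a).card := by
        rw [Finset.prod_congr rfl (fun t ht => by rw [orb_eq_of_mem ht]), Finset.prod_const]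
      have h5 : ∏ t ∈ (orb Y a)ᶜ, (orb (pst Y T) t).card ≤ ∏ t ∈ (orb Y a)ᶜ, (orb Y t).card :=
        Finset.prod_le_prod' fun t _ => Finset.card_le_card (orb_mono (pst_le Y T) t)
      have h6 := proc_numeric (D := (orb Y a).card) (m := 2 * L ^ 3) (by omega)
        (proc_orb_pos Y a)
      rw [e1, e2, h4]
      calc 2 ^ (2 * L ^ 3) * ((∏ t ∈ orb Y a, (orb (pst Y T) t).card) *
            ∏ t ∈ (orb Y a)ᶜ, (orb (pst Y T) t).card)
          = ((∏ t ∈ orb Y a, (orb (pst Y T) t).card) * 2 ^ (2 * L ^ 3)) *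
            ∏ t ∈ (orb Y a)ᶜ, (orb (pst Y T) t).card := by ring
        _ ≤ (((orb Y a).card - 2 * L ^ 3) ^ (orb Y a).card * 2 ^ (2 * L ^ 3)) *
            ∏ t ∈ (orb Y a)ᶜ, (orb Y t).card :=
          Nat.mul_le_mul (Nat.mul_le_mul_right _ h3) h5
        _ ≤ _ := Nat.mul_le_mul_right _ h6
    obtain ⟨X, hYX, hX⟩ := exists_gens (pst_le Y T)
    have h2 : Nat.card Y ≤ Nat.card (pst Y T) * 2 ^ (2 * L ^ 2) := by
      refine (card_le_pst Y T).trans (Nat.mul_le_mul_left _ ?_)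
      calc ∏ t ∈ T, (orb Y t).card ≤ (2 ^ L) ^ T.card :=
            Finset.prod_le_pow_card _ _ _ fun t _ => (proc_orb_le Y t).trans hn
        _ ≤ (2 ^ L) ^ (2 * L) := Nat.pow_le_pow_right (by positivity) hTL
        _ = 2 ^ (2 * L ^ 2) := by rw [← pow_mul]; congr 1; ring
    have h3 : X.card ≤ 2 * L ^ 2 := by
      have h4 : Nat.card (pst Y T) * 2 ^ X.card ≤ Nat.card (pst Y T) * 2 ^ (2 * L ^ 2) :=
        hX.trans h2
      have h5 := Nat.le_of_mul_le_mul_left h4 Nat.card_pos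
      exact (Nat.pow_le_pow_iff_right (by norm_num)).1 h5
    have h4 : L * X.card ≤ 2 * L ^ 3 := by
      calc L * X.card ≤ L * (2 * L ^ 2) := Nat.mul_le_mul_left _ h3
        _ = 2 * L ^ 3 := by ring
    refine ⟨T, X, hYX, ?_, ?_⟩
    · exact (Nat.mul_le_mul_right _ (Nat.pow_le_pow_right (by norm_num) h4)).trans h1
    · have h5 : 2 ≤ 2 ^ (2 * L ^ 3) := by
        calc 2 = 2 ^ 1 := rfl
          _ ≤ 2 ^ (2 * L ^ 3) := Nat.pow_le_pow_right (by norm_num) (by omega)
      have h6 := proc_pot_pos (pst Y T)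
      nlinarith

theorem process {α : Type*} [Fintype α] (L : ℕ) (hL : 1 ≤ L) (hn : Fintype.card α ≤ 2 ^ L)
    (Y : Subgroup (Perm α)) :
    ∃ (T : Finset α) (X : Finset (Perm α)),
      Y = pst Y T ⊔ Subgroup.closure (X : Set (Perm α)) ∧
      (∀ a, (orb (pst Y T) a).card < 8 * L ^ 4) ∧ 2 ^ (L * X.card) * pot (pst Y T) ≤ pot Y := by
  classical
  obtain ⟨m, hm⟩ : ∃ m, pot Y = m := ⟨_, rfl⟩
  induction m using Nat.strong_induction_on generalizing Y with
  | _ m ih =>
    by_cases hsmall : ∀ a, (orb Y a).card < 8 * L ^ 4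
    · refine ⟨∅, ∅, by simp [pst_empty], by simpa [pst_empty] using hsmall, by simp [pst_empty]⟩
    · push Not at hsmall
      obtain ⟨a, ha⟩ := hsmall
      obtain ⟨T, X, h1, h2, h3⟩ := proc_step L hL hn Y a ha
      obtain ⟨T', X', h1', h2', h3'⟩ := ih (pot (pst Y T)) (hm ▸ h3) (pst Y T) rfl
      rw [pst_pst] at h1' h2' h3'
      refine ⟨T ∪ T', X ∪ X', ?_, h2', ?_⟩
      · rw [Finset.coe_union, Subgroup.closure_union, sup_comm (Subgroup.closure (X : Set (Perm α))),
          ← sup_assoc, ← h1']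
        exact h1
      · have h4 : L * (X ∪ X').card ≤ L * X.card + L * X'.card := by
          rw [← mul_add]
          exact Nat.mul_le_mul_left _ (Finset.card_union_le _ _)
        calc 2 ^ (L * (X ∪ X').card) * pot (pst Y (T ∪ T'))
            ≤ 2 ^ (L * X.card + L * X'.card) * pot (pst Y (T ∪ T')) :=
              Nat.mul_le_mul_right _ (Nat.pow_le_pow_right (by norm_num) h4)
          _ = 2 ^ (L * X.card) * (2 ^ (L * X'.card) * pot (pst Y (T ∪ T'))) := by
              rw [pow_add]; ring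
          _ ≤ 2 ^ (L * X.card) * pot (pst Y T) := Nat.mul_le_mul_left _ h3'
          _ ≤ pot Y := h2

theorem mem_Cls_of_big (n L l k r : ℕ) (hn0 : 1 ≤ n) (hL : 1 ≤ L) (hn : n ≤ 2 ^ L) (hl : n ≤ 2 ^ l)
    (hr : l * n ≤ L * r + (L - 1)) (Y : Subgroup (Perm (Fin n)))
    (hbig : n ^ k * (8 * L ^ 4) ^ n < Nat.card Y) : Y ∈ Cls n k r := by
  classical
  obtain ⟨T, X, h1, h2, h3⟩ := process L hL (by simpa using hn) Y
  have hpot : pot Y ≤ 2 ^ (l * n) := by
    calc pot Y ≤ (2 ^ l) ^ (Finset.univ : Finset (Fin n)).card :=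
          Finset.prod_le_pow_card _ _ _ fun a _ => by
            have := proc_orb_le Y a
            rw [Fintype.card_fin] at this
            exact this.trans hl
      _ = 2 ^ (l * n) := by rw [Finset.card_univ, Fintype.card_fin, pow_mul]
  have hX : X.card ≤ r := by
    have h4 : 2 ^ (L * X.card) ≤ 2 ^ (l * n) := by
      calc 2 ^ (L * X.card) ≤ 2 ^ (L * X.card) * pot (pst Y T) :=
            Nat.le_mul_of_pos_right _ (proc_pot_pos _)
        _ ≤ pot Y := h3
        _ ≤ _ := hpot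
    have h5 := (Nat.pow_le_pow_iff_right (by norm_num)).1 h4
    by_contra hcon
    have h6 : r + 1 ≤ X.card := by omega
    have h7 : L * (r + 1) ≤ L * X.card := Nat.mul_le_mul_left _ h6
    have h8 : L * (r + 1) = L * r + L := by ring
    omega
  have hT : k ≤ T.card := by
    have h4 : Nat.card Y ≤ (8 * L ^ 4) ^ n * n ^ T.card := by
      refine (card_le_pst Y T).trans (Nat.mul_le_mul ?_ ?_)
      · refine (card_le_pot _).trans ?_
        calc pot (pst Y T) ≤ (8 * L ^ 4) ^ (Finset.univ : Finset (Fin n)).card :=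
              Finset.prod_le_pow_card _ _ _ fun a _ => (h2 a).le
          _ = (8 * L ^ 4) ^ n := by rw [Finset.card_univ, Fintype.card_fin]
      · exact Finset.prod_le_pow_card _ _ _ fun t _ => by
          have := proc_orb_le Y t
          rwa [Fintype.card_fin] at this
    have h5 : n ^ k * (8 * L ^ 4) ^ n < n ^ T.card * (8 * L ^ 4) ^ n := by
      rw [mul_comm (n ^ T.card)]
      exact lt_of_lt_of_le hbig h4
    have h6 : n ^ k < n ^ T.card := lt_of_mul_lt_mul_right h5 (Nat.zero_le _)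
    by_contra hcon
    have h7 : n ^ T.card ≤ n ^ k := Nat.pow_le_pow_right hn0 (by omega)
    omega
  obtain ⟨T', hT', hT'k⟩ := Finset.exists_subset_card_eq hT
  refine ⟨T', X, hT'k, hX, ?_⟩
  have hXY : Subgroup.closure (X : Set (Perm (Fin n))) ≤ Y := by
    rw [h1]
    exact le_sup_right
  apply le_antisymm
  · calc Y = pst Y T ⊔ Subgroup.closure (X : Set (Perm (Fin n))) := h1
      _ ≤ pst Y T' ⊔ Subgroup.closure (X : Set (Perm (Fin n))) :=
        sup_le_sup_right (pst_anti Y hT') _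
  · exact sup_le (pst_le Y T') hXY

theorem proc_fix {α : Type*} [Fintype α] (Y : Subgroup (Perm α)) {k : ℕ} (h : k ≤ nfix Y) :
    ∃ T : Finset α, T.card = k ∧ ∀ t ∈ T, ∀ g ∈ Y, g t = t := by
  classical
  obtain ⟨T, hT, hTk⟩ := Finset.exists_subset_card_eq h
  exact ⟨T, hTk, fun t ht => (Finset.mem_filter.1 (hT ht)).2⟩

theorem mem_Cls_of_fix (n k r : ℕ) (Y : Subgroup (Perm (Fin n))) (h : k ≤ nfix Y) :
    Y ∈ Cls n k r := by
  classical
  obtain ⟨T, hTk, hT⟩ := proc_fix Y h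
  refine ⟨T, ∅, hTk, by simp, ?_⟩
  have : pst Y T = Y := by
    apply le_antisymm (pst_le Y T)
    intro g hg
    refine ⟨hg, fun t ht => ?_⟩
    exact hT t ht g hg
  rw [this]
  simp

end Pool.Agent.SDA
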