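import Pool.Agent.SDA.Defs

/-!
# Counting the `g` with `h k^g = k'^g h'` (section 4c)
-/

set_option autoImplicit false
open scoped BigOperators Pointwise Nat
open Equiv

namespace Pool.Agent.SDA

namespace Word

variable {α : Type*} [Fintype α] [DecidableEq α]

omit [Fintype α] in
/-- Greedy choice of labels with pairwise disjoint patterns. -/
lemma greedy (p : Fin 4 → Perm α) (s : ℕ) : ∀ A : Finset α, 16 * s ≤ A.card →
    ∃ W ⊆ A, W.card = s ∧ ∀ w ∈ W, ∀ w' ∈ W, w ≠ w' → ∀ i j, p i w ≠ p j w' := by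
  induction s with
  | zero => intro A _; exact ⟨∅, by simp, by simp, by simp⟩
  | succ s ih =>
    intro A hA
    have hne : A.Nonempty := by
      rw [← Finset.card_pos]; omega
    obtain ⟨w₀, hw₀⟩ := hne
    let B : Finset α := (Finset.univ : Finset (Fin 4 × Fin 4)).image fun ij =>
      (p ij.2)⁻¹ (p ij.1 w₀)
    have hB : B.card ≤ 16 := by
      refine Finset.card_image_le.trans ?_
      simp
    have hA' : 16 * s ≤ (A \ B).card := by
      have := Finset.le_card_sdiff B A
      omega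
    obtain ⟨W, hW, hWc, hWd⟩ := ih _ hA'
    have hnot : ∀ w ∈ W, ∀ i j, p i w₀ ≠ p j w := by
      intro w hw i j he
      have h1 := hW hw
      rw [Finset.mem_sdiff] at h1
      apply h1.2
      refine Finset.mem_image.mpr ⟨(i, j), Finset.mem_univ _, ?_⟩
      simp only
      rw [he]; simp
    have hw₀W : w₀ ∉ W := fun hh => hnot w₀ hh 0 0 rfl
    refine ⟨insert w₀ W, ?_, ?_, ?_⟩
    · intro x hx
      rcases Finset.mem_insert.mp hx with rfl | hx
      · exact hw₀
      · exact (Finset.mem_sdiff.mp (hW hx)).1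
    · rw [Finset.card_insert_of_notMem hw₀W, hWc]
    · intro w hw w' hw' hne i j
      rcases Finset.mem_insert.mp hw with h1 | h1 <;> rcases Finset.mem_insert.mp hw' with h2 | h2
      · exact absurd (h1.trans h2.symm) hne
      · rw [h1]; exact hnot w' h2 i j
      · rw [h2]; exact fun he => hnot w h1 j i he.symm
      · exact hWd w h1 w' h2 hne i j

variable (h k h' k' : Perm α)

/-- the dropped label -/
def drop (F : α → Fin 4) (w : α) : α := if F w = 1 then k' (k⁻¹ w) else k⁻¹ w

/-- the set of the dropped labels -/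
def D (F : α → Fin 4) : Finset α := (Finset.univ.filter fun w => F w ≠ 0).image (drop k k' F)

/-- `g` can be decoded from `F` and its restriction to the complement of `D F`. -/
def Good (s : ℕ) (F : α → Fin 4) (g : Perm α) : Prop :=
  (D k k' F).card = s ∧ ∀ w,
    (F w = 1 → w ∉ D k k' F ∧ g (k' (k⁻¹ w)) = h (g w)) ∧
    (F w = 2 → w ∉ D k k' F ∧ g (k⁻¹ w) = h (g w)) ∧
    (F w = 3 → w ∉ D k k' F ∧ ∃ z, z ∉ D k k' F ∧ g z = h (g w) ∧ k'⁻¹ z ∉ D k k' F ∧
      g (k'⁻¹ z) = h' (g (k⁻¹ w)))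

lemma good_inj {s : ℕ} {F : α → Fin 4} {g₁ g₂ : Perm α} (h₁ : Good h k h' k' s F g₁)
    (h₂ : Good h k h' k' s F g₂) (he : ∀ x, x ∉ D k k' F → g₁ x = g₂ x) : g₁ = g₂ := by
  ext x
  by_cases hx : x ∈ D k k' F
  · obtain ⟨w, hw, rfl⟩ := Finset.mem_image.mp hx
    have hw0 : F w ≠ 0 := (Finset.mem_filter.mp hw).2
    have hcase : F w = 1 ∨ F w = 2 ∨ F w = 3 := by omega
    rcases hcase with h1 | h1 | h1
    · obtain ⟨a1, b1⟩ := (h₁.2 w).1 h1
      obtain ⟨-, b2⟩ := (h₂.2 w).1 h1
      simp only [drop, h1, if_true]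
      rw [b1, b2, he w a1]
    · obtain ⟨a1, b1⟩ := (h₁.2 w).2.1 h1
      obtain ⟨-, b2⟩ := (h₂.2 w).2.1 h1
      have hn : ¬ ((2 : Fin 4) = 1) := by decide
      simp only [drop, h1, hn, if_false]
      rw [b1, b2, he w a1]
    · obtain ⟨a1, z1, hz1, b1, c1, d1⟩ := (h₁.2 w).2.2 h1
      obtain ⟨-, z2, hz2, b2, c2, d2⟩ := (h₂.2 w).2.2 h1
      have hn : ¬ ((3 : Fin 4) = 1) := by decide
      simp only [drop, h1, hn, if_false]
      have hz : z1 = z2 := by
        apply g₁.injective
        rw [b1, he z2 hz2, b2, he w a1]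
      subst hz
      apply h'.injective
      rw [← d1, ← d2, he _ c1]
  · exact he x hx

lemma card_good (s : ℕ) (F : α → Fin 4) :
    Nat.card {g : Perm α // Good h k h' k' s F g} * s ! ≤ (Fintype.card α)! := by
  classical
  by_cases hs : (D k k' F).card = s
  · have hinj : Function.Injective
        (fun g : {g : Perm α // Good h k h' k' s F g} =>
          (⟨fun x : {x // x ∉ D k k' F} => g.1 x.1, fun x y hxy => by
            apply Subtype.ext; exact g.1.injective hxy⟩ : {x // x ∉ D k k' F} ↪ α)) := by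
      intro g₁ g₂ hg
      apply Subtype.ext
      refine good_inj h k h' k' g₁.2 g₂.2 fun x hx => ?_
      have := congrArg (fun f : {x // x ∉ D k k' F} ↪ α => f ⟨x, hx⟩) hg
      exact this
    have hc := Nat.card_le_card_of_injective _ hinj
    have hD : Fintype.card {x // x ∉ D k k' F} = Fintype.card α - s := by
      rw [Fintype.card_subtype_compl, Fintype.card_coe, hs]
    have hsn : s ≤ Fintype.card α := by
      rw [← hs]; exact Finset.card_le_univ _
    rw [Nat.card_eq_fintype_card (α := ({x // x ∉ D k k' F} ↪ α)), Fintype.card_embedding_eq, hD]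
      at hc
    have hf := Nat.factorial_mul_descFactorial (Nat.sub_le (Fintype.card α) s)
    rw [Nat.sub_sub_self hsn] at hf
    calc _ ≤ (Fintype.card α).descFactorial (Fintype.card α - s) * s ! := Nat.mul_le_mul_right _ hc
      _ = (Fintype.card α)! := by rw [mul_comm, hf]
  · have : IsEmpty {g : Perm α // Good h k h' k' s F g} := ⟨fun g => hs g.2.1⟩
    simp

lemma exists_good (s : ℕ) (g : Perm α) (hg : h * (g * k * g⁻¹) = (g * k' * g⁻¹) * h')
    (hA : 16 * s ≤ (Finset.univ.filter fun x => h x ≠ x ∧ (g * k * g⁻¹) x ≠ x).card) :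
    ∃ F : α → Fin 4, Good h k h' k' s F g := by
  let p : Fin 4 → Perm α := ![1, g⁻¹ * h * g, k⁻¹, k'⁻¹ * (g⁻¹ * h * g)]
  have p0 : ∀ x, p 0 x = x := fun x => rfl
  have p1 : ∀ x, p 1 x = g⁻¹ (h (g x)) := fun x => rfl
  have p2 : ∀ x, p 2 x = k⁻¹ x := fun x => rfl
  have p3 : ∀ x, p 3 x = k'⁻¹ (g⁻¹ (h (g x))) := fun x => rfl
  let A' : Finset α := Finset.univ.filter fun w => h (g w) ≠ g w ∧ k w ≠ w
  have hA' : 16 * s ≤ A'.card := by
    refine hA.trans ?_
    refine Finset.card_le_card_of_injOn (fun x => g⁻¹ x) ?_ (g⁻¹).injective.injOn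
    intro x hx
    have hx' := (Finset.mem_filter.mp (Finset.mem_coe.mp hx)).2
    refine Finset.mem_coe.mpr (Finset.mem_filter.mpr ⟨Finset.mem_univ _, ?_, ?_⟩)
    · simpa using hx'.1
    · intro hk
      apply hx'.2
      simp only [Perm.mul_apply]
      rw [hk]; simp
  obtain ⟨W, hWA, hWc, hWd⟩ := greedy p s A' hA'
  let F : α → Fin 4 := fun w => if w ∈ W then
    (if g⁻¹ (h (g w)) = k' (k⁻¹ w) then 1 else if g⁻¹ (h (g w)) = k⁻¹ w then 2 else 3) else 0
  have hF0 : ∀ w, F w ≠ 0 ↔ w ∈ W := by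
    intro w
    by_cases hw : w ∈ W
    · simp only [F, hw, if_true, iff_true]
      split_ifs <;> decide
    · simp [F, hw]
  have hF1 : ∀ w, F w = 1 → w ∈ W ∧ g⁻¹ (h (g w)) = k' (k⁻¹ w) := by
    intro w hw
    have hwW : w ∈ W := (hF0 w).mp (by rw [hw]; decide)
    refine ⟨hwW, ?_⟩
    by_contra hne
    simp only [F, hwW, if_true, hne, if_false] at hw
    split_ifs at hw <;> exact absurd hw (by decide)
  have hF2 : ∀ w, F w = 2 → w ∈ W ∧ g⁻¹ (h (g w)) = k⁻¹ w := by
    intro w hw
    have hwW : w ∈ W := (hF0 w).mp (by rw [hw]; decide)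
    refine ⟨hwW, ?_⟩
    by_contra hne
    simp only [F, hwW, if_true, hne, if_false] at hw
    split_ifs at hw <;> exact absurd hw (by decide)
  have hF3 : ∀ w, F w = 3 → w ∈ W ∧ g⁻¹ (h (g w)) ≠ k' (k⁻¹ w) ∧ g⁻¹ (h (g w)) ≠ k⁻¹ w := by
    intro w hw
    have hwW : w ∈ W := (hF0 w).mp (by rw [hw]; decide)
    refine ⟨hwW, fun he => ?_, fun he => ?_⟩
    · simp only [F, hwW, if_true, he] at hw
      exact absurd hw (by decide)
    · simp only [F, hwW, if_true, he] at hw
      split_ifs at hw <;> exact absurd hw (by decide)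
  -- the dropped label lies in the pattern of its label
  have hdrop : ∀ w ∈ W, ∃ j, drop k k' F w = p j w := by
    intro w hw
    by_cases h1 : F w = 1
    · refine ⟨1, ?_⟩
      rw [p1, (hF1 w h1).2]
      simp [drop, h1]
    · refine ⟨2, ?_⟩
      rw [p2]
      simp [drop, h1]
  have hDmem : ∀ x, x ∈ D k k' F → ∃ w' ∈ W, x = drop k k' F w' := by
    intro x hx
    obtain ⟨w, hw, rfl⟩ := Finset.mem_image.mp hx
    exact ⟨w, (hF0 w).mp (Finset.mem_filter.mp hw).2, rfl⟩
  have hDself : ∀ w ∈ W, ∀ i, p i w ∈ D k k' F → p i w = drop k k' F w := by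
    intro w hw i hi
    obtain ⟨w', hw', he⟩ := hDmem _ hi
    by_cases hww : w = w'
    · rw [he, hww]
    · obtain ⟨j, hj⟩ := hdrop w' hw'
      exact absurd (he.trans hj) (hWd w hw w' hw' hww i j)
  have hfilt : (Finset.univ.filter fun w => F w ≠ 0) = W := by
    ext w; simp only [Finset.mem_filter, Finset.mem_univ, true_and]; exact hF0 w
  have hwne : ∀ w ∈ W, w ≠ drop k k' F w := by
    intro w hw he
    have hwA := (Finset.mem_filter.mp (hWA hw)).2
    by_cases h1 : F w = 1
    · have h2 := (hF1 w h1).2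
      simp only [drop, h1, if_true] at he
      rw [← he] at h2
      apply hwA.1
      have := congrArg g h2
      simpa using this
    · simp only [drop, h1, if_false] at he
      apply hwA.2
      nth_rewrite 1 [he]
      simp
  have hwD : ∀ w ∈ W, w ∉ D k k' F := by
    intro w hw hwD
    have := hDself w hw 0 (by rw [p0]; exact hwD)
    rw [p0] at this
    exact hwne w hw this
  refine ⟨F, ?_, ?_⟩
  · rw [D, hfilt, Finset.card_image_of_injOn, hWc]
    intro w hw w' hw' he
    by_contra hne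
    obtain ⟨i, hi⟩ := hdrop w hw
    obtain ⟨j, hj⟩ := hdrop w' hw'
    exact hWd w hw w' hw' hne i j (by rw [← hi, ← hj]; exact he)
  · intro w
    refine ⟨fun h1 => ?_, fun h1 => ?_, fun h1 => ?_⟩
    · obtain ⟨hw, h2⟩ := hF1 w h1
      refine ⟨hwD w hw, ?_⟩
      rw [← h2]; simp
    · obtain ⟨hw, h2⟩ := hF2 w h1
      refine ⟨hwD w hw, ?_⟩
      rw [← h2]; simp
    · obtain ⟨hw, h2, h3⟩ := hF3 w h1
      have hd : drop k k' F w = k⁻¹ w := by
        have hn : ¬ ((3 : Fin 4) = 1) := by decide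
        simp only [drop, h1, hn, if_false]
      refine ⟨hwD w hw, g⁻¹ (h (g w)), ?_, by simp, ?_, ?_⟩
      · intro hz
        have := hDself w hw 1 (by rw [p1]; exact hz)
        rw [p1, hd] at this
        exact h3 this
      · intro hc
        have := hDself w hw 3 (by rw [p3]; exact hc)
        rw [p3, hd] at this
        apply h2
        rw [← this]; simp
      · -- the equation at `g a`
        have h4 := congrArg (fun σ : Perm α => σ (g (k⁻¹ w))) hg
        simp only [Perm.mul_apply] at h4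
        have h5 : g⁻¹ (g (k⁻¹ w)) = k⁻¹ w := by simp
        have h6 : k (k⁻¹ w) = w := by simp
        rw [h5, h6] at h4
        rw [h4]
        simp

end Word

open Classical in
theorem count_g {α : Type*} [Fintype α] (h k h' k' : Perm α) (s : ℕ) :
    Nat.card {g : Perm α // h * (g * k * g⁻¹) = (g * k' * g⁻¹) * h' ∧
        16 * s ≤ (Finset.univ.filter fun x => h x ≠ x ∧ (g * k * g⁻¹) x ≠ x).card} * s ! ≤
      4 ^ (Fintype.card α) * (Fintype.card α) ! := by
  have hex : ∀ g : {g : Perm α // h * (g * k * g⁻¹) = (g * k' * g⁻¹) * h' ∧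
        16 * s ≤ (Finset.univ.filter fun x => h x ≠ x ∧ (g * k * g⁻¹) x ≠ x).card},
      ∃ F : α → Fin 4, Word.Good h k h' k' s F g.1 := fun g =>
    Word.exists_good h k h' k' s g.1 g.2.1 g.2.2
  choose Φ hΦ using hex
  have hinj : Function.Injective (fun g : {g : Perm α // h * (g * k * g⁻¹) = (g * k' * g⁻¹) * h' ∧
        16 * s ≤ (Finset.univ.filter fun x => h x ≠ x ∧ (g * k * g⁻¹) x ≠ x).card} =>
      (⟨Φ g, ⟨g.1, hΦ g⟩⟩ : Σ F : α → Fin 4, {g : Perm α // Word.Good h k h' k' s F g})) := by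
    intro g₁ g₂ hg
    apply Subtype.ext
    have := congrArg (fun x : (Σ F : α → Fin 4, {g : Perm α // Word.Good h k h' k' s F g}) =>
      x.2.1) hg
    exact this
  have hc := Nat.card_le_card_of_injective _ hinj
  rw [Nat.card_sigma] at hc
  calc _ ≤ (∑ F : α → Fin 4, Nat.card {g : Perm α // Word.Good h k h' k' s F g}) * s ! :=
        Nat.mul_le_mul_right _ hc
    _ = ∑ F : α → Fin 4, Nat.card {g : Perm α // Word.Good h k h' k' s F g} * s ! := by
        rw [Finset.sum_mul]
    _ ≤ ∑ _F : α → Fin 4, (Fintype.card α)! := Finset.sum_le_sum fun F _ =>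
        Word.card_good h k h' k' s F
    _ = 4 ^ (Fintype.card α) * (Fintype.card α) ! := by
        simp [Finset.sum_const]

end Pool.Agent.SDA
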